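import Pool.Agent.KS6_78.ISP.Main

open Finset

namespace Pool.Agent.KS6_78.ISP

/-- `m` disjoint copies of `K_a` (on `Fin m × Fin a`), completely joined to a clique `K_r`. -/
def blk (m a r : ℕ) : SimpleGraph ((Fin m × Fin a) ⊕ Fin r) where
  Adj x y := x ≠ y ∧ ∀ p q, x = Sum.inl p → y = Sum.inl q → p.1 = q.1
  symm := ⟨fun x y h => ⟨h.1.symm, fun p q hp hq => (h.2 q p hq hp).symm⟩⟩
  loopless := ⟨fun x h => h.1 rfl⟩

lemma blk_nadj {m a r : ℕ} {x y : (Fin m × Fin a) ⊕ Fin r} (hne : x ≠ y)
    (h : ¬ (blk m a r).Adj x y) : ∃ p q, x = Sum.inl p ∧ y = Sum.inl q ∧ p.1 ≠ q.1 := by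
  by_contra hcon
  push Not at hcon
  exact h ⟨hne, fun p q hp hq => hcon p q hp hq⟩

open Classical in
theorem blk_count (m a r k : ℕ) (hk : 2 ≤ k) :
    indCount (blk m a r) k = m.choose k * a ^ k := by
  have h1 : (((univ : Finset (Fin m)).powersetCard k).sigma
      (fun B => B.pi (fun _ => (univ : Finset (Fin a))))).card = m.choose k * a ^ k := by
    rw [card_sigma]
    have : ∀ B ∈ (univ : Finset (Fin m)).powersetCard k,
        (B.pi (fun _ => (univ : Finset (Fin a)))).card = a ^ k := by
      intro B hB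
      rw [card_pi, prod_const, card_univ, Fintype.card_fin, (mem_powersetCard.1 hB).2]
    rw [sum_congr rfl this, sum_const, card_powersetCard, card_univ, Fintype.card_fin,
      smul_eq_mul]
  rw [← h1, indCount]
  symm
  refine card_bij (fun b _ => b.1.attach.image
    (fun i => (Sum.inl (i.1, b.2 i.1 i.2) : (Fin m × Fin a) ⊕ Fin r))) ?_ ?_ ?_
  · rintro ⟨B, f⟩ hb
    simp only [mem_sigma, mem_powersetCard] at hb
    refine mem_indSets.2 ⟨?_, ?_⟩
    · intro x hx y hy hne hadj
      simp only [coe_image, Set.mem_image, mem_coe, mem_attach, true_and] at hx hy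
      obtain ⟨i, rfl⟩ := hx
      obtain ⟨i', rfl⟩ := hy
      have h2 := hadj.2 _ _ rfl rfl
      simp only at h2
      apply hne
      have : i = i' := Subtype.ext h2
      rw [this]
    · rw [card_image_of_injective, card_attach, hb.1.2]
      intro i i' h
      simp only [Sum.inl.injEq, Prod.mk.injEq] at h
      exact Subtype.ext h.1
  · rintro ⟨B, f⟩ hb ⟨B', f'⟩ hb' heq
    simp only at heq
    have hmem : ∀ (i : Fin m) (hi : i ∈ B), ∃ hi' : i ∈ B', f i hi = f' i hi' := by
      intro i hi
      have : (Sum.inl (i, f i hi) : (Fin m × Fin a) ⊕ Fin r) ∈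
          B'.attach.image (fun i => (Sum.inl (i.1, f' i.1 i.2) : (Fin m × Fin a) ⊕ Fin r)) := by
        rw [← heq]
        exact mem_image.2 ⟨⟨i, hi⟩, mem_attach _ _, rfl⟩
      obtain ⟨i', _, h⟩ := mem_image.1 this
      simp only [Sum.inl.injEq, Prod.mk.injEq] at h
      obtain ⟨h2, h3⟩ := h
      have hi' : i ∈ B' := h2 ▸ i'.2
      refine ⟨hi', ?_⟩
      subst h2
      exact h3.symm
    have hmem' : ∀ (i : Fin m), i ∈ B' → i ∈ B := by
      intro i hi
      have : (Sum.inl (i, f' i hi) : (Fin m × Fin a) ⊕ Fin r) ∈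
          B.attach.image (fun i => (Sum.inl (i.1, f i.1 i.2) : (Fin m × Fin a) ⊕ Fin r)) := by
        rw [heq]
        exact mem_image.2 ⟨⟨i, hi⟩, mem_attach _ _, rfl⟩
      obtain ⟨i', _, h⟩ := mem_image.1 this
      simp only [Sum.inl.injEq, Prod.mk.injEq] at h
      exact h.1 ▸ i'.2
    have hBB : B = B' := by
      ext i
      exact ⟨fun hi => (hmem i hi).1, hmem' i⟩
    subst hBB
    congr 1
    funext i hi
    exact (hmem i hi).2
  · intro A hA
    obtain ⟨hAi, hAc⟩ := mem_indSets.1 hA
    -- every element of `A` is an `inl`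
    have hinl : ∀ x ∈ A, ∃ p, x = Sum.inl p := by
      intro x hx
      obtain ⟨y, hy, hne⟩ : ∃ y ∈ A, y ≠ x := by
        by_contra hcon
        push Not at hcon
        have : A ⊆ {x} := fun y hy => mem_singleton.2 (hcon y hy)
        have := card_le_card this
        rw [card_singleton] at this
        omega
      obtain ⟨p, q, hp, _, _⟩ := blk_nadj hne.symm (hAi (by exact_mod_cast hx) (by exact_mod_cast hy)
        hne.symm)
      exact ⟨p, hp⟩
    have hinj : ∀ i p q, Sum.inl (i, p) ∈ A → Sum.inl (i, q) ∈ A → p = q := by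
      intro i p q hp hq
      by_contra hne
      have hne' : (Sum.inl (i, p) : (Fin m × Fin a) ⊕ Fin r) ≠ Sum.inl (i, q) := by
        intro h; apply hne; simpa using h
      obtain ⟨p', q', hp', hq', h⟩ := blk_nadj hne' (hAi (by exact_mod_cast hp)
        (by exact_mod_cast hq) hne')
      apply h
      simp only [Sum.inl.injEq] at hp' hq'
      rw [← hp', ← hq']
    set B : Finset (Fin m) := univ.filter (fun i => ∃ p, (Sum.inl (i, p) :
      (Fin m × Fin a) ⊕ Fin r) ∈ A) with hB
    have hBm : ∀ i, i ∈ B → ∃ p, (Sum.inl (i, p) : (Fin m × Fin a) ⊕ Fin r) ∈ A := by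
      intro i hi
      simpa [hB] using hi
    have himg : B.attach.image (fun i => (Sum.inl (i.1, (hBm i.1 i.2).choose) :
        (Fin m × Fin a) ⊕ Fin r)) = A := by
      ext x
      simp only [mem_image, mem_attach, true_and]
      constructor
      · rintro ⟨i, rfl⟩
        exact (hBm i.1 i.2).choose_spec
      · intro hx
        obtain ⟨⟨i, p⟩, rfl⟩ := hinl x hx
        have hi : i ∈ B := by
          simp only [hB, mem_filter, mem_univ, true_and]
          exact ⟨p, hx⟩
        refine ⟨⟨i, hi⟩, ?_⟩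
        rw [hinj i _ p (hBm i hi).choose_spec hx]
    refine ⟨⟨B, fun i hi => (hBm i hi).choose⟩, ?_, himg⟩
    simp only [mem_sigma, mem_powersetCard, subset_univ, true_and, mem_pi, mem_univ,
      implies_true, and_true]
    rw [← hAc, ← himg, card_image_of_injective, card_attach]
    intro i i' h
    simp only [Sum.inl.injEq, Prod.mk.injEq] at h
    exact Subtype.ext h.1

lemma blk_count_one (m a r : ℕ) : indCount (blk m a r) 1 = m * a + r := by
  rw [indCount_one]
  simp

end Pool.Agent.KS6_78.ISP
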