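import Mathlib

open Finset

namespace Pool.Agent.KS6_78.ISP

variable {V : Type*} [Fintype V]

open Classical in
/-- The independent sets of size `k` of a finite graph. -/
noncomputable def indSets (G : SimpleGraph V) (k : ℕ) : Finset (Finset V) :=
  univ.filter fun A => G.IsNIndepSet k A

/-- `i_k(G)`: the number of independent sets of size `k`. -/
noncomputable def indCount (G : SimpleGraph V) (k : ℕ) : ℕ := (indSets G k).card

/-- Weighted version of `i_k`. -/
noncomputable def P (G : SimpleGraph V) (k : ℕ) (x : V → ℝ) : ℝ :=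
  ∑ A ∈ indSets G k, ∏ v ∈ A, x v

lemma mem_indSets {G : SimpleGraph V} {k : ℕ} {A : Finset V} :
    A ∈ indSets G k ↔ G.IsIndepSet A ∧ A.card = k := by
  classical
  simp only [indSets, mem_filter, mem_univ, true_and, SimpleGraph.isNIndepSet_iff]

lemma P_one (G : SimpleGraph V) (k : ℕ) : P G k (fun _ => 1) = (indCount G k : ℝ) := by
  simp [P, indCount]

lemma P_nonneg (G : SimpleGraph V) (k : ℕ) (x : V → ℝ) (hx : ∀ v, 0 ≤ x v) : 0 ≤ P G k x :=
  sum_nonneg fun _ _ => prod_nonneg fun w _ => hx w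

lemma lin [DecidableEq V] (G : SimpleGraph V) (k : ℕ) (x : V → ℝ) (hx : ∀ v, 0 ≤ x v)
    {u v : V} (huv : G.Adj u v) :
    ∃ A B C : ℝ, 0 ≤ A ∧ 0 ≤ B ∧ 0 ≤ C ∧ ∀ a b : ℝ,
      P G k (Function.update (Function.update x u a) v b) = A + B * a + C * b := by
  have hne : u ≠ v := huv.ne
  refine ⟨∑ S ∈ indSets G k, (if u ∈ S then 0 else if v ∈ S then 0 else ∏ w ∈ S, x w),
    ∑ S ∈ indSets G k, (if u ∈ S then ∏ w ∈ S.erase u, x w else 0),
    ∑ S ∈ indSets G k, (if u ∈ S then 0 else if v ∈ S then ∏ w ∈ S.erase v, x w else 0),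
    ?_, ?_, ?_, ?_⟩
  · exact sum_nonneg fun S _ => by
      split_ifs <;> first | exact le_rfl | exact prod_nonneg fun w _ => hx w
  · exact sum_nonneg fun S _ => by
      split_ifs <;> first | exact le_rfl | exact prod_nonneg fun w _ => hx w
  · exact sum_nonneg fun S _ => by
      split_ifs <;> first | exact le_rfl | exact prod_nonneg fun w _ => hx w
  · intro a b
    unfold P
    rw [sum_mul, sum_mul, ← sum_add_distrib, ← sum_add_distrib]
    refine sum_congr rfl fun S hS => ?_
    by_cases hu : u ∈ S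
    · have hv : v ∉ S := by
        intro hv
        exact (mem_indSets.1 hS).1 (by exact_mod_cast hu) (by exact_mod_cast hv) hne huv
      rw [if_pos hu, if_pos hu, if_pos hu, ← mul_prod_erase S _ hu]
      have h3 : ∏ w ∈ S.erase u, Function.update (Function.update x u a) v b w
          = ∏ w ∈ S.erase u, x w := prod_congr rfl fun w hw => by
        have h1 : w ≠ u := ne_of_mem_erase hw
        have h2 : w ≠ v := fun h => hv (h ▸ mem_of_mem_erase hw)
        rw [Function.update_of_ne h2, Function.update_of_ne h1]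
      rw [h3, Function.update_of_ne hne, Function.update_self]
      ring
    · rw [if_neg hu, if_neg hu, if_neg hu]
      by_cases hv : v ∈ S
      · rw [if_pos hv, if_pos hv, ← mul_prod_erase S _ hv]
        have h3 : ∏ w ∈ S.erase v, Function.update (Function.update x u a) v b w
            = ∏ w ∈ S.erase v, x w := prod_congr rfl fun w hw => by
          have h1 : w ≠ v := ne_of_mem_erase hw
          have h2 : w ≠ u := fun h => hu (h ▸ mem_of_mem_erase hw)
          rw [Function.update_of_ne h1, Function.update_of_ne h2]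
        rw [h3, Function.update_self]
        ring
      · rw [if_neg hv, if_neg hv]
        have h3 : ∏ w ∈ S, Function.update (Function.update x u a) v b w
            = ∏ w ∈ S, x w := prod_congr rfl fun w hw => by
          have h1 : w ≠ v := fun h => hv (h ▸ hw)
          have h2 : w ≠ u := fun h => hu (h ▸ hw)
          rw [Function.update_of_ne h1, Function.update_of_ne h2]
        rw [h3]
        ring

omit [Fintype V] in
lemma card_filter_mem [DecidableEq V] (T : Finset V) (s : ℕ) (hs : 1 ≤ s) {v : V} (hv : v ∈ T) :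
    ((T.powersetCard s).filter (fun S => v ∈ S)).card = (T.card - 1).choose (s - 1) := by
  have h1 : (T.powersetCard s).filter (fun S => v ∈ S)
      = ((T.erase v).powersetCard (s - 1)).image (insert v) := by
    ext S
    simp only [mem_filter, mem_powersetCard, mem_image]
    constructor
    · rintro ⟨⟨hST, hc⟩, hvS⟩
      refine ⟨S.erase v, ⟨erase_subset_erase v hST, ?_⟩, insert_erase hvS⟩
      rw [card_erase_of_mem hvS, hc]
    · rintro ⟨R, ⟨hR, hc⟩, rfl⟩
      have hvR : v ∉ R := fun h => notMem_erase v T (hR h)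
      refine ⟨⟨?_, ?_⟩, mem_insert_self v R⟩
      · exact insert_subset hv (hR.trans (erase_subset v T))
      · rw [card_insert_of_notMem hvR, hc]; omega
  rw [h1, card_image_of_injOn, card_powersetCard, card_erase_of_mem hv]
  intro A hA B hB hAB
  have hA' : v ∉ A := fun h => notMem_erase v T ((mem_powersetCard.1 (by exact_mod_cast hA)).1 h)
  have hB' : v ∉ B := fun h => notMem_erase v T ((mem_powersetCard.1 (by exact_mod_cast hB)).1 h)
  have := congrArg (fun S => S.erase v) hAB
  simpa [erase_insert hA', erase_insert hB'] using this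

omit [Fintype V] in
lemma prod_prod [DecidableEq V] (T : Finset V) (x : V → ℝ) (s : ℕ) (hs : 1 ≤ s) :
    ∏ S ∈ T.powersetCard s, ∏ v ∈ S, x v = (∏ v ∈ T, x v) ^ ((T.card - 1).choose (s - 1)) := by
  have h1 : ∏ S ∈ T.powersetCard s, ∏ v ∈ S, x v
      = ∏ v ∈ T, ∏ S ∈ (T.powersetCard s).filter (fun S => v ∈ S), x v := by
    refine prod_comm' ?_
    intro S v
    simp only [mem_filter, mem_powersetCard]
    constructor
    · rintro ⟨⟨h1, h2⟩, h3⟩
      exact ⟨⟨⟨h1, h2⟩, h3⟩, h1 h3⟩
    · rintro ⟨⟨⟨h1, h2⟩, h3⟩, _⟩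
      exact ⟨⟨h1, h2⟩, h3⟩
  rw [h1, ← prod_pow]
  refine prod_congr rfl fun v hv => ?_
  rw [prod_const, card_filter_mem T s hs hv]

omit [Fintype V] in
lemma amgm (A : Finset V) (z : V → ℝ) (hz : ∀ v ∈ A, 0 ≤ z v) (hA : 0 < A.card) :
    ∏ v ∈ A, z v ≤ ((∑ v ∈ A, z v) / A.card) ^ A.card := by
  have h := Real.geom_mean_le_arith_mean A (fun _ => (1 : ℝ)) z (fun _ _ => zero_le_one)
    (by simpa using hA) hz
  simp only [Real.rpow_one, one_mul, sum_const, nsmul_eq_mul, mul_one] at h
  have hp : 0 ≤ ∏ v ∈ A, z v := prod_nonneg hz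
  have h2 := pow_le_pow_left₀ (Real.rpow_nonneg hp _) h A.card
  rw [← Real.rpow_natCast, ← Real.rpow_mul hp, inv_mul_cancel₀ (by exact_mod_cast hA.ne'),
    Real.rpow_one] at h2
  exact h2

omit [Fintype V] in
lemma base_amgm [DecidableEq V] (T : Finset V) (x : V → ℝ) (hx : ∀ v, 0 ≤ x v) (s : ℕ)
    (hs : 1 ≤ s) (hsT : s ≤ T.card) :
    ((T.card.choose s : ℝ)) ^ T.card * (∏ v ∈ T, x v) ^ s
      ≤ (∑ S ∈ T.powersetCard s, ∏ v ∈ S, x v) ^ T.card := by
  set m := T.card with hm
  set N := m.choose s with hN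
  set M := (m - 1).choose (s - 1) with hM
  set E := ∑ S ∈ T.powersetCard s, ∏ v ∈ S, x v with hE
  set p := ∏ v ∈ T, x v with hp
  have hNpos : 0 < N := Nat.choose_pos hsT
  have hMN : m * M = N * s := by
    obtain ⟨m', hm'⟩ : ∃ m', m = m' + 1 := ⟨m - 1, by omega⟩
    obtain ⟨s', hs'⟩ : ∃ s', s = s' + 1 := ⟨s - 1, by omega⟩
    rw [hN, hM, hm', hs']
    simpa using Nat.add_one_mul_choose_eq m' s'
  have hp0 : 0 ≤ p := prod_nonneg fun v _ => hx v
  have hE0 : 0 ≤ E := sum_nonneg fun S _ => prod_nonneg fun v _ => hx v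
  have h1 := amgm (T.powersetCard s) (fun S => ∏ v ∈ S, x v)
    (fun S _ => prod_nonneg fun v _ => hx v) (by rw [card_powersetCard]; exact hNpos)
  rw [prod_prod T x s hs, card_powersetCard] at h1
  change p ^ M ≤ (E / (N : ℝ)) ^ N at h1
  have h2 := pow_le_pow_left₀ (pow_nonneg hp0 M) h1 m
  rw [← pow_mul, ← pow_mul, mul_comm M m, hMN, mul_comm N s, mul_comm N m, pow_mul, pow_mul] at h2
  have hEN : 0 ≤ E / (N : ℝ) := div_nonneg hE0 (Nat.cast_nonneg _)
  have h3 : p ^ s ≤ (E / (N : ℝ)) ^ m :=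
    le_of_pow_le_pow_left₀ hNpos.ne' (pow_nonneg hEN m) h2
  have hN' : (0 : ℝ) < N := by exact_mod_cast hNpos
  calc (N : ℝ) ^ m * p ^ s ≤ (N : ℝ) ^ m * (E / (N : ℝ)) ^ m :=
        mul_le_mul_of_nonneg_left h3 (pow_nonneg hN'.le m)
    _ = E ^ m := by
        rw [← mul_pow, mul_div_cancel₀ _ hN'.ne']

end Pool.Agent.KS6_78.ISP
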