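import Pool.Agent.KS6_78.ISP.Blk

open Finset

namespace Pool.Agent.KS6_78.ISP

/-- `π` is an independent set permutation of `G`.  The permutation `π(1) … π(m)` of `{1,…,m}` is
encoded as a permutation of `Fin m`, an element `i : Fin m` standing for the size `i + 1`. -/
def IsISP {V : Type*} [Fintype V] {m : ℕ} (π : Equiv.Perm (Fin m)) (G : SimpleGraph V) : Prop :=
  G.indepNum = m ∧
    ∀ i j : Fin m, i ≤ j → indCount G ((π i : ℕ) + 1) ≤ indCount G ((π j : ℕ) + 1)

/-- The set of all orders of graphs having `π` as an independent set permutation; `g(π)` is its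
least element. -/
def orders {m : ℕ} (π : Equiv.Perm (Fin m)) : Set ℕ :=
  {n | ∃ G : SimpleGraph (Fin n), IsISP π G}

section

variable {V W : Type*} [Fintype V] [Fintype W]

lemma exists_iff_pos (G : SimpleGraph V) (k : ℕ) :
    (∃ s, G.IsNIndepSet k s) ↔ 0 < indCount G k := by
  rw [indCount, card_pos]
  constructor
  · rintro ⟨s, hs⟩
    exact ⟨s, mem_indSets.2 ⟨hs.1, hs.2⟩⟩
  · rintro ⟨s, hs⟩
    exact ⟨s, ⟨(mem_indSets.1 hs).1, (mem_indSets.1 hs).2⟩⟩

lemma indepNum_eq {G : SimpleGraph V} {m : ℕ} (h1 : 0 < indCount G m)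
    (h2 : ∀ k, m < k → indCount G k = 0) : G.indepNum = m := by
  apply le_antisymm
  · by_contra hcon
    have h3 := (exists_iff_pos G _).1 G.exists_isNIndepSet_indepNum
    have := h2 _ (not_le.1 hcon)
    omega
  · obtain ⟨s, hs⟩ := (exists_iff_pos G _).2 h1
    have := hs.1.card_le_indepNum
    rw [hs.2] at this
    exact this

lemma indCount_comap (G : SimpleGraph V) (e : W ≃ V) (k : ℕ) :
    indCount (G.comap e) k = indCount G k := by
  classical
  unfold indCount
  refine card_bij (fun A _ => A.map e.toEmbedding) ?_ ?_ ?_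
  · intro A hA
    obtain ⟨h1, h2⟩ := mem_indSets.1 hA
    refine mem_indSets.2 ⟨?_, by rw [card_map, h2]⟩
    intro a ha b hb hab hadj
    simp only [coe_map, Set.mem_image, mem_coe, Equiv.coe_toEmbedding] at ha hb
    obtain ⟨a', ha', rfl⟩ := ha
    obtain ⟨b', hb', rfl⟩ := hb
    exact h1 (by exact_mod_cast ha') (by exact_mod_cast hb') (fun h => hab (by rw [h])) hadj
  · intro A _ B _ h
    exact map_injective _ h
  · intro B hB
    obtain ⟨h1, h2⟩ := mem_indSets.1 hB
    refine ⟨B.map e.symm.toEmbedding, mem_indSets.2 ⟨?_, by rw [card_map, h2]⟩, ?_⟩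
    · intro a ha b hb hab hadj
      simp only [coe_map, Set.mem_image, mem_coe, Equiv.coe_toEmbedding] at ha hb
      obtain ⟨a', ha', rfl⟩ := ha
      obtain ⟨b', hb', rfl⟩ := hb
      have hadj' : G.Adj (e (e.symm a')) (e (e.symm b')) := hadj
      rw [e.apply_symm_apply, e.apply_symm_apply] at hadj'
      exact h1 (by exact_mod_cast ha') (by exact_mod_cast hb') (fun h => hab (by rw [h])) hadj'
    · ext x
      simp

lemma mem_orders {m n : ℕ} {π : Equiv.Perm (Fin m)} {G : SimpleGraph V} (h : IsISP π G)
    (hn : Fintype.card V = n) : n ∈ orders π := by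
  subst hn
  let e : Fin (Fintype.card V) ≃ V := (Fintype.equivFin V).symm
  refine ⟨G.comap e, ?_, ?_⟩
  · rw [← h.1]
    apply indepNum_eq
    · rw [indCount_comap]
      exact (exists_iff_pos G _).1 G.exists_isNIndepSet_indepNum
    · intro k hk
      rw [indCount_comap]
      by_contra hne
      obtain ⟨s, hs⟩ := (exists_iff_pos G k).2 (Nat.pos_of_ne_zero hne)
      have := hs.1.card_le_indepNum
      rw [hs.2] at this
      omega
  · intro i j hij
    rw [indCount_comap, indCount_comap]
    exact h.2 i j hij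

/-- The general lower bound. -/
theorem lower (G : SimpleGraph V) {m : ℕ} (π : Equiv.Perm (Fin m)) (h : IsISP π G)
    (s t j z : Fin m) (ht : (t : ℕ) + 1 = m) (hz : (z : ℕ) = 0) (hst : s < t)
    (hpre : π.symm s < π.symm t) (hj : π.symm j ≤ π.symm z) :
    (m.choose (j + 1)) ^ (m - (s + 1)) * (m.choose (s + 1)) ^ ((j : ℕ) + 1)
      ≤ (Fintype.card V) ^ (m - (s + 1)) := by
  have hα : ∀ A : Finset V, G.IsIndepSet A → A.card ≤ m := by
    intro A hA
    rw [← h.1]
    exact hA.card_le_indepNum
  have hex : ∃ A : Finset V, G.IsIndepSet A ∧ A.card = m := by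
    obtain ⟨A, hA⟩ := G.exists_isNIndepSet_indepNum
    exact ⟨A, hA.1, by rw [hA.2, h.1]⟩
  have hsv : (s : ℕ) < t := hst
  have hjm := j.2
  have h1 : indCount G (s + 1) ≤ indCount G m := by
    have := h.2 (π.symm s) (π.symm t) hpre.le
    rwa [Equiv.apply_symm_apply, Equiv.apply_symm_apply, ht] at this
  have h2 : indCount G (j + 1) ≤ Fintype.card V := by
    have := h.2 (π.symm j) (π.symm z) hj
    rwa [Equiv.apply_symm_apply, Equiv.apply_symm_apply, hz, zero_add, indCount_one] at this
  have h3 := (consequences G m (s + 1) (by omega) (by omega) hα hex h1).1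
  have h4 := count_ineq G m (j + 1) (by omega) (by omega) hα
  set S := (s : ℕ) + 1 with hS
  set J := (j : ℕ) + 1 with hJ
  set D := m - S with hD
  have h5 : ((m.choose J) ^ D * (m.choose S) ^ J) ^ m ≤ ((Fintype.card V) ^ D) ^ m := by
    calc ((m.choose J) ^ D * (m.choose S) ^ J) ^ m
        = ((m.choose J) ^ m) ^ D * ((m.choose S) ^ m) ^ J := by
          rw [mul_pow, ← pow_mul, ← pow_mul, ← pow_mul, ← pow_mul, mul_comm D m, mul_comm J m]
      _ ≤ ((m.choose J) ^ m) ^ D * ((indCount G m) ^ D) ^ J :=
          Nat.mul_le_mul_left _ (Nat.pow_le_pow_left (h3.trans (Nat.pow_le_pow_left h1 _)) _)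
      _ = ((m.choose J) ^ m * (indCount G m) ^ J) ^ D := by
          rw [mul_pow, ← pow_mul (indCount G m) D J, ← pow_mul (indCount G m) J D, mul_comm D J]
      _ ≤ ((indCount G J) ^ m) ^ D := Nat.pow_le_pow_left h4 _
      _ ≤ ((Fintype.card V) ^ m) ^ D := Nat.pow_le_pow_left (Nat.pow_le_pow_left h2 _) _
      _ = ((Fintype.card V) ^ D) ^ m := by rw [← pow_mul, ← pow_mul, mul_comm]
  exact (Nat.pow_le_pow_iff_left (by omega)).1 h5

end

lemma w_mono (m k l : ℕ) (hk : 1 ≤ k) (hkl : k ≤ l) (hl : l ≤ m) :
    m.choose k * m ^ k ≤ m.choose l * m ^ l := by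
  induction l, hkl using Nat.le_induction with
  | base => exact le_rfl
  | succ l hkl ih =>
    refine (ih (by omega)).trans ?_
    have h1 : m.choose (l + 1) * (l + 1) = m.choose l * (m - l) := Nat.choose_succ_right_eq m l
    have h2 : (m.choose l * m ^ l) * (l + 1) ≤ (m.choose (l + 1) * m ^ (l + 1)) * (l + 1) := by
      calc (m.choose l * m ^ l) * (l + 1) ≤ (m.choose l * m ^ l) * ((m - l) * m) := by
            apply Nat.mul_le_mul_left
            calc l + 1 ≤ 1 * m := by omega
              _ ≤ (m - l) * m := Nat.mul_le_mul_right _ (by omega)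
        _ = (m.choose l * (m - l)) * m ^ (l + 1) := by rw [pow_succ]; ring
        _ = (m.choose (l + 1) * m ^ (l + 1)) * (l + 1) := by rw [← h1]; ring
    exact Nat.le_of_mul_le_mul_right h2 (by omega)

lemma blk_indepNum (m a r : ℕ) (hm : 1 ≤ m) (ha : 1 ≤ a) : (blk m a r).indepNum = m := by
  apply indepNum_eq
  · rcases hm.lt_or_eq with h | h
    · rw [blk_count m a r m h]
      simp only [Nat.choose_self, one_mul]
      exact pow_pos ha m
    · subst h
      rw [blk_count_one]
      omega
  · intro k hk
    rw [blk_count m a r k (by omega), Nat.choose_eq_zero_of_lt hk, zero_mul]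

lemma card_blk (m a r : ℕ) : Fintype.card ((Fin m × Fin a) ⊕ Fin r) = m * a + r := by simp

lemma symm_val {m : ℕ} (j x : Fin m) :
    (((Fin.cycleRange j).symm x : Fin m) : ℕ)
      = if (x : ℕ) = 0 then (j : ℕ) else if x ≤ j then (x : ℕ) - 1 else x := by
  split_ifs with h1 h2
  · have : (Fin.cycleRange j).symm x = j := by
      rw [Equiv.symm_apply_eq]
      apply Fin.ext
      rw [Fin.coe_cycleRange_of_le le_rfl, if_pos rfl, h1]
    rw [this]
  · have h2' : (x : ℕ) ≤ j := h2
    have hlt : (⟨(x : ℕ) - 1, by omega⟩ : Fin m) < j := by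
      rw [Fin.lt_def]; simp only; omega
    have : (Fin.cycleRange j).symm x = ⟨(x : ℕ) - 1, by omega⟩ := by
      rw [Equiv.symm_apply_eq]
      apply Fin.ext
      rw [Fin.coe_cycleRange_of_lt hlt]
      simp only
      omega
    rw [this]
  · have : (Fin.cycleRange j).symm x = x := by
      rw [Equiv.symm_apply_eq]
      rw [Fin.cycleRange_of_gt (not_le.1 h2)]
    rw [this]

/-- Exact values: `g(2 3 … j 1 (j+1) … m) = C(m,j) m^j`. -/
theorem exact_cycle (m : ℕ) (j : Fin m) (h2 : m = 2 → (j : ℕ) = 0) :
    IsLeast (orders (Fin.cycleRange j)) (m.choose (j + 1) * m ^ ((j : ℕ) + 1)) := by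
  have hjm := j.2
  constructor
  · set N := m.choose (j + 1) * m ^ ((j : ℕ) + 1) with hN
    have hle : m * m ≤ N := by
      have := w_mono m 1 (j + 1) le_rfl (by omega) (by omega)
      simpa using this
    refine mem_orders (G := blk m m (N - m * m)) ⟨blk_indepNum m m _ (by omega) (by omega), ?_⟩ ?_
    · have hval : ∀ i : Fin m, indCount (blk m m (N - m * m)) ((Fin.cycleRange j i : ℕ) + 1)
          = m.choose (if i < j then (i : ℕ) + 2 else (i : ℕ) + 1)
            * m ^ (if i < j then (i : ℕ) + 2 else (i : ℕ) + 1) := by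
        intro i
        rcases lt_trichotomy i j with h | h | h
        · rw [if_pos h, Fin.coe_cycleRange_of_lt h, blk_count _ _ _ _ (by omega)]
        · subst h
          rw [if_neg (lt_irrefl _), Fin.coe_cycleRange_of_le le_rfl, if_pos rfl, zero_add,
            blk_count_one, Nat.add_sub_cancel' hle]
        · have h' : (j : ℕ) < i := h
          rw [if_neg (lt_asymm h), Fin.cycleRange_of_gt h, blk_count _ _ _ _ (by omega)]
      intro i i' hii
      have hii' : (i : ℕ) ≤ i' := hii
      have hi'm := i'.2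
      rw [hval, hval]
      apply w_mono
      · split_ifs <;> omega
      · split_ifs with h3 h4 h4
        · omega
        · have h3' : (i : ℕ) < j := h3
          have h4' : ¬ (i' : ℕ) < j := h4
          omega
        · have h3' : ¬ (i : ℕ) < j := h3
          have h4' : (i' : ℕ) < j := h4
          omega
        · omega
      · split_ifs with h3
        · have h3' : (i' : ℕ) < j := h3
          omega
        · omega
    · rw [card_blk, Nat.add_sub_cancel' hle]
  · rintro n ⟨G, hG⟩
    rcases Nat.lt_or_ge m 2 with hm | hm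
    · have hm1 : m = 1 := by omega
      subst hm1
      have hj0 : (j : ℕ) = 0 := by omega
      rw [hj0]
      simp only [zero_add, Nat.choose_self, pow_one, mul_one]
      obtain ⟨A, hA⟩ := G.exists_isNIndepSet_indepNum
      have h3 := card_le_univ A
      rw [hA.2, hG.1, Fintype.card_fin] at h3
      exact h3
    · have hz := symm_val j ⟨0, by omega⟩
      simp only [if_true] at hz
      have hs := symm_val j ⟨m - 2, by omega⟩
      have ht := symm_val j ⟨m - 1, by omega⟩
      have hj := symm_val j j
      have key := lower G (Fin.cycleRange j) hG ⟨m - 2, by omega⟩ ⟨m - 1, by omega⟩ j ⟨0, by omega⟩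
        (by simp only; omega) rfl (by rw [Fin.lt_def]; simp only; omega)
        (by
          rw [Fin.lt_def, hs, ht]
          simp only [Fin.le_def]
          split_ifs <;> omega)
        (by
          rw [Fin.le_def, hz, hj]
          split_ifs <;> omega)
      rw [Fintype.card_fin] at key
      have e1 : m - (m - 2 + 1) = 1 := by omega
      have e2 : m - 2 + 1 = m - 1 := by omega
      simp only [e1, pow_one] at key
      rw [e2, Nat.choose_symm (by omega : 1 ≤ m), Nat.choose_one_right] at key
      exact key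

/-- If `m-1` precedes `m` and `1` does not precede `m-1`, at least `m^m` vertices are needed. -/
theorem lower_top (m : ℕ) (π : Equiv.Perm (Fin m)) (s t z : Fin m) (hs : (s : ℕ) + 2 = m)
    (ht : (t : ℕ) + 1 = m) (hz : (z : ℕ) = 0) (hpre : π.symm s < π.symm t)
    (hpz : π.symm s ≤ π.symm z) : ∀ n ∈ orders π, m ^ m ≤ n := by
  rintro n ⟨G, hG⟩
  have key := lower G π hG s t s z ht hz (by rw [Fin.lt_def]; omega) hpre hpz
  rw [Fintype.card_fin] at key
  have e1 : m - ((s : ℕ) + 1) = 1 := by omega
  have e2 : (s : ℕ) + 1 = m - 1 := by omega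
  rw [e1, e2, Nat.choose_symm (by omega : 1 ≤ m), Nat.choose_one_right, pow_one, pow_one] at key
  calc m ^ m = m * m ^ (m - 1) := by
        rw [← pow_succ']; congr 1; omega
    _ ≤ n := key

end Pool.Agent.KS6_78.ISP
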