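import Pool.Agent.KS6_78.ISP.Zyk

open Finset

namespace Pool.Agent.KS6_78.ISP

lemma w_strict_step (m l : ℕ) (hl : l + 2 ≤ m) :
    m.choose l * m ^ l < m.choose (l + 1) * m ^ (l + 1) := by
  have h1 : m.choose (l + 1) * (l + 1) = m.choose l * (m - l) := Nat.choose_succ_right_eq m l
  have hpos : 0 < m.choose l * m ^ l := Nat.mul_pos (Nat.choose_pos (by omega)) (pow_pos (by omega) _)
  have h2 : (m.choose l * m ^ l) * (l + 1) < (m.choose (l + 1) * m ^ (l + 1)) * (l + 1) := by
    calc (m.choose l * m ^ l) * (l + 1) < (m.choose l * m ^ l) * ((m - l) * m) := by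
          apply Nat.mul_lt_mul_of_pos_left _ hpos
          calc l + 1 < 1 * m := by omega
            _ ≤ (m - l) * m := Nat.mul_le_mul_right _ (by omega)
      _ = (m.choose l * (m - l)) * m ^ (l + 1) := by rw [pow_succ]; ring
      _ = (m.choose (l + 1) * m ^ (l + 1)) * (l + 1) := by rw [← h1]; ring
  exact Nat.lt_of_mul_lt_mul_right h2

lemma w_strict (m k l : ℕ) (hk : 1 ≤ k) (hkl : k < l) (hl : l ≤ m) (hne : k + 1 < m) :
    m.choose k * m ^ k < m.choose l * m ^ l :=
  (w_strict_step m k (by omega)).trans_le (w_mono m (k + 1) l (by omega) hkl hl)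

/-- If `m-1` precedes `m` then `g(π) ≥ m²`, with equality only for the identity. -/
theorem ident (m : ℕ) (π : Equiv.Perm (Fin m)) (s t : Fin m) (hs : (s : ℕ) + 2 = m)
    (ht : (t : ℕ) + 1 = m) (hpre : π.symm s < π.symm t) :
    (∀ n ∈ orders π, m ^ 2 ≤ n) ∧ (m ^ 2 ∈ orders π ↔ π = 1) := by
  have e1 : m - ((s : ℕ) + 1) = 1 := by omega
  have e2 : (s : ℕ) + 1 = m - 1 := by omega
  have hst : s < t := by rw [Fin.lt_def]; omega
  have key : ∀ n ∈ orders π, ∀ j κ : Fin m, π.symm j ≤ π.symm κ →
      m ^ ((κ : ℕ) + 1) * (m.choose (j + 1) * m ^ ((j : ℕ) + 1))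
        ≤ m.choose (κ + 1) * n ^ ((κ : ℕ) + 1) := by
    rintro n ⟨G, hG⟩ j κ hjκ
    have h := lower_gen G π hG s t j κ ht hst hpre hjκ
    rw [Fintype.card_fin, e1, e2, Nat.choose_symm (by omega : 1 ≤ m), Nat.choose_one_right,
      pow_one, pow_one, mul_assoc] at h
    exact h
  refine ⟨?_, ?_⟩
  · intro n hn
    have h := key n hn t t le_rfl
    rw [ht, Nat.choose_self, one_mul, one_mul, ← mul_pow] at h
    rw [sq]
    exact (Nat.pow_le_pow_iff_left (by omega)).1 h
  · constructor
    · intro hmem
      have hmono : ∀ a b : Fin m, a < b → π.symm a < π.symm b := by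
        intro a b hab
        have hab' : (a : ℕ) < b := hab
        have hbm := b.2
        by_contra hcon
        rw [not_lt] at hcon
        by_cases hlast : (a : ℕ) + 2 = m
        · have ha : a = s := Fin.ext (by omega)
          have hb : b = t := Fin.ext (by omega)
          rw [ha, hb] at hcon
          exact absurd hpre (not_lt.2 hcon)
        · have h := key _ hmem b a hcon
          have h2 := w_strict m (a + 1) (b + 1) (by omega) (by omega) (by omega) (by omega)
          have h3 : m ^ ((a : ℕ) + 1) * (m.choose (b + 1) * m ^ ((b : ℕ) + 1))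
              ≤ m ^ ((a : ℕ) + 1) * (m.choose (a + 1) * m ^ ((a : ℕ) + 1)) := by
            refine h.trans (le_of_eq ?_)
            rw [← pow_mul]
            ring
          have h4 := Nat.le_of_mul_le_mul_left h3 (pow_pos (by omega) _)
          omega
      let e : Fin m ≃o Fin m := StrictMono.orderIsoOfSurjective π.symm
        (fun a b h => hmono a b h) π.symm.surjective
      have he : e = OrderIso.refl (Fin m) := Subsingleton.elim _ _
      have h5 : ∀ a, π.symm a = a := fun a => by
        have : e a = a := by rw [he]; rfl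
        exact this
      ext a
      have := h5 (π a)
      rw [Equiv.symm_apply_apply] at this
      rw [← this]
      rfl
    · rintro rfl
      have hm : 0 < m := by omega
      have h := (exact_cycle m ⟨0, hm⟩ (fun _ => rfl)).1
      have h6 : Fin.cycleRange (⟨0, hm⟩ : Fin m) = 1 := by
        ext a
        rcases Nat.eq_zero_or_pos (a : ℕ) with h0 | h0
        · have : a = ⟨0, hm⟩ := Fin.ext h0
          subst this
          rw [Fin.coe_cycleRange_of_le le_rfl, if_pos rfl]
          rfl
        · rw [Fin.cycleRange_of_gt (by rw [Fin.lt_def]; exact h0)]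
          rfl
      rw [h6] at h
      have e3 : m.choose (0 + 1) * m ^ (0 + 1) = m ^ 2 := by
        rw [zero_add, Nat.choose_one_right]; ring
      simp only at h
      rw [e3] at h
      exact h

end Pool.Agent.KS6_78.ISP
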