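import Pool.Agent.KS6_78.ISP.Core

open Finset

namespace Pool.Agent.KS6_78.ISP

variable {V : Type*} [Fintype V]

open Classical in
lemma main_ineq (G : SimpleGraph V) (m s : ℕ) (hs : 1 ≤ s) (hsm : s ≤ m)
    (hα : ∀ A : Finset V, G.IsIndepSet A → A.card ≤ m) :
    ∀ (k : ℕ) (x : V → ℝ), (∀ v, 0 ≤ x v) → (univ.filter fun v => x v ≠ 0).card = k →
      ((m.choose s : ℝ)) ^ m * (P G m x) ^ s ≤ (P G s x) ^ m := by
  intro k
  induction k using Nat.strong_induction_on with
  | _ k ih =>
  intro x hx hk
  by_cases hcl : ∃ u v, x u ≠ 0 ∧ x v ≠ 0 ∧ G.Adj u v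
  · obtain ⟨u, v, hu, hv, huv⟩ := hcl
    obtain ⟨A, B, C, hA, hB, hC, hP⟩ := lin G m x hx huv
    obtain ⟨A', B', C', hA', hB', hC', hP'⟩ := lin G s x hx huv
    have hxx : Function.update (Function.update x u (x u)) v (x v) = x := by simp
    have e1 : P G m x = A + B * x u + C * x v := by rw [← hP, hxx]
    have e2 : P G s x = A' + B' * x u + C' * x v := by rw [← hP', hxx]
    have hne : u ≠ v := huv.ne
    have key : ∀ a b : ℝ, 0 ≤ a → 0 ≤ b → (a = 0 ∨ b = 0) →
        B * a + C * b = B * x u + C * x v →
        B' * a + C' * b ≤ B' * x u + C' * x v →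
        ((m.choose s : ℝ)) ^ m * (P G m x) ^ s ≤ (P G s x) ^ m := by
      intro a b ha hb hab h1 h2
      set y := Function.update (Function.update x u a) v b with hy
      have hyv : y v = b := by rw [hy, Function.update_self]
      have hyu : y u = a := by rw [hy, Function.update_of_ne hne, Function.update_self]
      have hyw : ∀ w, w ≠ u → w ≠ v → y w = x w := fun w h1 h2 => by
        rw [hy, Function.update_of_ne h2, Function.update_of_ne h1]
      have hy0 : ∀ w, 0 ≤ y w := by
        intro w
        by_cases hwv : w = v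
        · rw [hwv, hyv]; exact hb
        · by_cases hwu : w = u
          · rw [hwu, hyu]; exact ha
          · rw [hyw w hwu hwv]; exact hx w
      have hlt : (univ.filter fun w => y w ≠ 0).card < k := by
        rw [← hk]
        apply card_lt_card
        rw [ssubset_iff_subset_ne]
        constructor
        · intro w hw
          simp only [mem_filter, mem_univ, true_and] at hw ⊢
          by_cases hwv : w = v
          · rw [hwv]; exact hv
          · by_cases hwu : w = u
            · rw [hwu]; exact hu
            · rw [← hyw w hwu hwv]; exact hw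
        · intro heq
          rcases hab with h | h
          · have : u ∈ univ.filter fun w => y w ≠ 0 := by
              rw [heq]; simp [hu]
            simp [hyu, h] at this
          · have : v ∈ univ.filter fun w => y w ≠ 0 := by
              rw [heq]; simp [hv]
            simp [hyv, h] at this
      have h5 := ih _ hlt y hy0 rfl
      have e3 : P G m y = P G m x := by rw [hy, hP, e1]; linarith
      have e4 : P G s y ≤ P G s x := by rw [hy, hP', e2]; linarith
      rw [e3] at h5
      exact h5.trans (pow_le_pow_left₀ (P_nonneg G s y hy0) e4 m)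
    have hxu := hx u
    have hxv := hx v
    rcases hB.eq_or_lt with hB0 | hBpos
    · refine key 0 (x v) le_rfl hxv (Or.inl rfl) ?_ ?_
      · rw [← hB0]; ring
      · nlinarith [mul_nonneg hB' hxu]
    rcases hC.eq_or_lt with hC0 | hCpos
    · refine key (x u) 0 hxu le_rfl (Or.inr rfl) ?_ ?_
      · rw [← hC0]; ring
      · nlinarith [mul_nonneg hC' hxv]
    rcases le_total (B' * C) (C' * B) with h | h
    · refine key (x u + x v * C / B) 0 (by positivity) le_rfl (Or.inr rfl) ?_ ?_
      · field_simp
        ring
      · have h6 : B' * (x v * C / B) ≤ C' * x v := by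
          rw [← mul_div_assoc, div_le_iff₀ hBpos]
          nlinarith [mul_le_mul_of_nonneg_left h hxv]
        rw [mul_add]
        linarith
    · refine key 0 (x v + x u * B / C) le_rfl (by positivity) (Or.inl rfl) ?_ ?_
      · field_simp
        ring
      · have h6 : C' * (x u * B / C) ≤ B' * x u := by
          rw [← mul_div_assoc, div_le_iff₀ hCpos]
          nlinarith [mul_le_mul_of_nonneg_left h hxu]
        rw [mul_add]
        linarith
  · push Not at hcl
    set T : Finset V := univ.filter fun v => x v ≠ 0 with hT
    have hTi : G.IsIndepSet T := by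
      intro a ha b hb _
      have ha' : x a ≠ 0 := by simpa [hT] using ha
      have hb' : x b ≠ 0 := by simpa [hT] using hb
      exact hcl a b ha' hb'
    rcases (hα T hTi).lt_or_eq with hlt | heq
    · have h0 : P G m x = 0 := by
        refine sum_eq_zero fun S hS => ?_
        have hSc := (mem_indSets.1 hS).2
        have : ¬ S ⊆ T := fun h => by
          have := card_le_card h
          omega
        obtain ⟨w, hwS, hwT⟩ := not_subset.1 this
        refine prod_eq_zero hwS ?_
        by_contra hne
        exact hwT (by simp [hT, hne])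
      rw [h0, zero_pow (by omega), mul_zero]
      exact pow_nonneg (P_nonneg G s x hx) m
    · have h1 : P G m x = ∏ v ∈ T, x v := by
        unfold P
        refine sum_eq_single T ?_ ?_
        · intro S hS hne
          have hSc := (mem_indSets.1 hS).2
          have : ¬ S ⊆ T := fun h => hne (eq_of_subset_of_card_le h (by omega))
          obtain ⟨w, hwS, hwT⟩ := not_subset.1 this
          refine prod_eq_zero hwS ?_
          by_contra hne
          exact hwT (by simp [hT, hne])
        · intro h
          exact absurd (mem_indSets.2 ⟨hTi, heq⟩) h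
      have h2 : ∑ S ∈ T.powersetCard s, ∏ v ∈ S, x v ≤ P G s x := by
        unfold P
        refine sum_le_sum_of_subset_of_nonneg ?_ (fun S _ _ => prod_nonneg fun w _ => hx w)
        intro S hS
        obtain ⟨h3, h4⟩ := mem_powersetCard.1 hS
        refine mem_indSets.2 ⟨?_, h4⟩
        intro a ha b hb hab
        exact hTi (by exact_mod_cast h3 (by exact_mod_cast ha))
          (by exact_mod_cast h3 (by exact_mod_cast hb)) hab
      have h3 := base_amgm T x hx s hs (by omega)
      rw [heq] at h3
      rw [h1]
      refine h3.trans (pow_le_pow_left₀ ?_ h2 m)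
      exact sum_nonneg fun S _ => prod_nonneg fun w _ => hx w

/-- `i_s(G)^m ≥ C(m,s)^m * i_m(G)^s` when no independent set has more than `m` vertices. -/
theorem count_ineq (G : SimpleGraph V) (m s : ℕ) (hs : 1 ≤ s) (hsm : s ≤ m)
    (hα : ∀ A : Finset V, G.IsIndepSet A → A.card ≤ m) :
    (m.choose s) ^ m * (indCount G m) ^ s ≤ (indCount G s) ^ m := by
  have h := main_ineq G m s hs hsm hα _ (fun _ => (1 : ℝ)) (fun _ => zero_le_one) rfl
  rw [P_one, P_one] at h
  exact_mod_cast h

lemma indCount_one (G : SimpleGraph V) : indCount G 1 = Fintype.card V := by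
  classical
  have : indSets G 1 = (univ : Finset V).image (fun v => ({v} : Finset V)) := by
    ext A
    rw [mem_indSets, card_eq_one]
    simp only [mem_image, mem_univ, true_and]
    constructor
    · rintro ⟨_, a, rfl⟩
      exact ⟨a, rfl⟩
    · rintro ⟨a, rfl⟩
      exact ⟨by simp [SimpleGraph.IsIndepSet], a, rfl⟩
  rw [indCount, this, card_image_of_injective _ (fun a b h => by simpa using h), card_univ]

/-- consequences of `i_s ≤ i_m` for a graph with independence number `m`. -/
theorem consequences (G : SimpleGraph V) (m s : ℕ) (hs : 1 ≤ s) (hsm : s < m)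
    (hα : ∀ A : Finset V, G.IsIndepSet A → A.card ≤ m)
    (hex : ∃ A : Finset V, G.IsIndepSet A ∧ A.card = m)
    (hle : indCount G s ≤ indCount G m) :
    (m.choose s) ^ m ≤ (indCount G s) ^ (m - s) ∧
      m ^ (m - s) * m.choose s ≤ (Fintype.card V) ^ (m - s) := by
  have h1 := count_ineq G m s hs hsm.le hα
  have h2 := count_ineq G m 1 le_rfl (by omega) hα
  rw [indCount_one, Nat.choose_one_right, pow_one] at h2
  have hpos : 0 < indCount G s := by
    obtain ⟨A, hA, hAc⟩ := hex
    obtain ⟨B, hB, hBc⟩ := exists_subset_card_eq (show s ≤ A.card by omega)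
    refine card_pos.2 ⟨B, mem_indSets.2 ⟨?_, hBc⟩⟩
    intro a ha b hb hab
    exact hA (by exact_mod_cast hB (by exact_mod_cast ha))
      (by exact_mod_cast hB (by exact_mod_cast hb)) hab
  have h3 : (m.choose s) ^ m ≤ (indCount G s) ^ (m - s) := by
    have h4 : (m.choose s) ^ m * (indCount G s) ^ s ≤ (indCount G s) ^ (m - s) * (indCount G s) ^ s := by
      calc (m.choose s) ^ m * (indCount G s) ^ s ≤ (m.choose s) ^ m * (indCount G m) ^ s :=
            Nat.mul_le_mul_left _ (Nat.pow_le_pow_left hle s)
        _ ≤ (indCount G s) ^ m := h1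
        _ = (indCount G s) ^ (m - s) * (indCount G s) ^ s := by
            rw [← pow_add]; congr 1; omega
    exact Nat.le_of_mul_le_mul_right h4 (pow_pos hpos s)
  refine ⟨h3, ?_⟩
  -- raise to the m-th power
  have h5 : (m ^ (m - s) * m.choose s) ^ m ≤ ((Fintype.card V) ^ (m - s)) ^ m := by
    calc (m ^ (m - s) * m.choose s) ^ m = (m ^ m) ^ (m - s) * (m.choose s) ^ m := by
          rw [mul_pow, ← pow_mul, ← pow_mul, mul_comm (m - s) m]
      _ ≤ (m ^ m) ^ (m - s) * (indCount G s) ^ (m - s) := Nat.mul_le_mul_left _ h3
      _ ≤ (m ^ m) ^ (m - s) * (indCount G m) ^ (m - s) :=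
          Nat.mul_le_mul_left _ (Nat.pow_le_pow_left hle _)
      _ = (m ^ m * indCount G m) ^ (m - s) := by rw [mul_pow]
      _ ≤ ((Fintype.card V) ^ m) ^ (m - s) := Nat.pow_le_pow_left h2 _
      _ = ((Fintype.card V) ^ (m - s)) ^ m := by rw [← pow_mul, ← pow_mul, mul_comm]
  exact (Nat.pow_le_pow_iff_left (by omega)).1 h5

end Pool.Agent.KS6_78.ISP
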