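import Pool.Agent.KS6_78.ISP.Zyk

open Finset

namespace Pool.Agent.KS6_78.ISP

/-- Newton's inequalities for the sequence `E` with respect to `n`. -/
structure Newt (n : ℕ) (E : ℕ → ℝ) : Prop where
  zero : E 0 = 1
  nonneg : ∀ k, 0 ≤ E k
  prop : ∀ k, E k = 0 → E (k + 1) = 0
  top : ∀ k, n < k → E k = 0
  newton : ∀ k, k + 2 ≤ n → (E k / n.choose k) * (E (k + 2) / n.choose (k + 2))
    ≤ (E (k + 1) / n.choose (k + 1)) ^ 2

/-- the sequence after adding a variable with value `x` -/
def addVar (x : ℝ) (E : ℕ → ℝ) : ℕ → ℝ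
  | 0 => E 0
  | k + 1 => E (k + 1) + x * E k

lemma rec_p (n k : ℕ) (hk : k ≤ n) (x : ℝ) (E : ℕ → ℝ) (htop : ∀ k, n < k → E k = 0) :
    ((n : ℝ) + 1) * (addVar x E (k + 1) / (n + 1).choose (k + 1))
      = ((n : ℝ) - k) * (E (k + 1) / n.choose (k + 1)) + ((k : ℝ) + 1) * x * (E k / n.choose k) := by
  have h1 : (((n + 1).choose (k + 1) : ℕ) : ℝ) * ((k : ℝ) + 1) = ((n : ℝ) + 1) * (n.choose k : ℝ) := by
    exact_mod_cast (Nat.add_one_mul_choose_eq n k).symm
  have hc0 : (0 : ℝ) < (n.choose k : ℝ) := by exact_mod_cast Nat.choose_pos hk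
  have hc1 : (0 : ℝ) < ((n + 1).choose (k + 1) : ℕ) := by
    exact_mod_cast Nat.choose_pos (by omega : k + 1 ≤ n + 1)
  have h2 : ((n.choose (k + 1) : ℕ) : ℝ) * ((k : ℝ) + 1) = (n.choose k : ℝ) * ((n : ℝ) - k) := by
    have := Nat.choose_succ_right_eq n k
    have h3 : ((n.choose (k + 1) * (k + 1) : ℕ) : ℝ) = ((n.choose k * (n - k) : ℕ) : ℝ) := by
      rw [this]
    push_cast [Nat.cast_sub hk] at h3
    exact h3
  have hk1 : (0 : ℝ) < (k : ℝ) + 1 := by positivity
  have hn1 : (0 : ℝ) < (n : ℝ) + 1 := by positivity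
  have h4 : ((n : ℝ) + 1) / ((n + 1).choose (k + 1) : ℕ) = ((k : ℝ) + 1) / (n.choose k : ℝ) := by
    rw [div_eq_div_iff hc1.ne' hc0.ne']
    linarith
  have e1 : ((n : ℝ) + 1) * (addVar x E (k + 1) / (n + 1).choose (k + 1))
      = (((n : ℝ) + 1) / ((n + 1).choose (k + 1) : ℕ)) * (E (k + 1) + x * E k) := by
    simp only [addVar]; ring
  rw [e1, h4]
  rcases hk.lt_or_eq with hlt | heq
  · have hc2 : (0 : ℝ) < (n.choose (k + 1) : ℝ) := by exact_mod_cast Nat.choose_pos hlt
    have h5 : ((n : ℝ) - k) / (n.choose (k + 1) : ℝ) = ((k : ℝ) + 1) / (n.choose k : ℝ) := by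
      rw [div_eq_div_iff hc2.ne' hc0.ne']
      linarith
    have e2 : ((n : ℝ) - k) * (E (k + 1) / n.choose (k + 1))
        = (((n : ℝ) - k) / (n.choose (k + 1) : ℝ)) * E (k + 1) := by ring
    rw [e2, h5]
    ring
  · have : E (k + 1) = 0 := htop _ (by omega)
    rw [this, heq]
    ring

lemma Newt.step {n : ℕ} {E : ℕ → ℝ} (h : Newt n E) {x : ℝ} (hx : 0 ≤ x) :
    Newt (n + 1) (addVar x E) := by
  refine ⟨h.zero, ?_, ?_, ?_, ?_⟩
  · intro k
    rcases k with _ | k
    · exact h.nonneg 0
    · exact add_nonneg (h.nonneg _) (mul_nonneg hx (h.nonneg _))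
  · intro k hk
    rcases k with _ | k
    · simp only [addVar] at hk
      rw [h.zero] at hk
      norm_num at hk
    · simp only [addVar] at hk ⊢
      have h1 := h.nonneg (k + 1)
      have h2 := mul_nonneg hx (h.nonneg k)
      have h3 : E (k + 1) = 0 := by linarith
      rw [h3, h.prop _ h3]
      ring
  · intro k hk
    rcases k with _ | k
    · omega
    · simp only [addVar]
      rw [h.top (k + 1) (by omega), h.top k (by omega)]
      ring
  · intro k hk
    -- notation
    have hn1 : (0 : ℝ) < (n : ℝ) + 1 := by positivity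
    set c := E (k + 1) / (n.choose (k + 1) : ℝ) with hc
    set b := E k / (n.choose k : ℝ) with hb
    set d := E (k + 2) / (n.choose (k + 2) : ℝ) with hd
    have hc0 : 0 ≤ c := div_nonneg (h.nonneg _) (Nat.cast_nonneg _)
    have hb0 : 0 ≤ b := div_nonneg (h.nonneg _) (Nat.cast_nonneg _)
    have hd0 : 0 ≤ d := div_nonneg (h.nonneg _) (Nat.cast_nonneg _)
    have r1 := rec_p n k (by omega) x E h.top
    have r2 := rec_p n (k + 1) (by omega) x E h.top
    have hbd : b * d ≤ c ^ 2 := by
      rcases Nat.lt_or_ge n (k + 2) with hlt | hge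
      · have : d = 0 := by rw [hd, h.top _ hlt]; simp
        rw [this, mul_zero]
        positivity
      · exact h.newton k hge
    have hkn : ((k : ℝ) + 1) ≤ (n : ℝ) := by exact_mod_cast (by omega : k + 1 ≤ n)
    rcases k with _ | k
    · -- k = 0
      have hb1 : b = 1 := by rw [hb, h.zero]; simp
      have e0 : addVar x E 0 / ((n + 1).choose 0 : ℝ) = 1 := by
        simp [addVar, h.zero]
      rw [e0, one_mul]
      push_cast at r1 r2
      rw [hb1] at hbd
      have hA : ((n : ℝ) + 1) * (addVar x E (0 + 1) / (n + 1).choose (0 + 1)) = (n : ℝ) * c + x := by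
        rw [r1, ← hb, hb1, ← hc]; ring
      have hB : ((n : ℝ) + 1) * (addVar x E (0 + 2) / (n + 1).choose (0 + 2))
          = ((n : ℝ) - 1) * d + 2 * x * c := by
        have := r2
        rw [← hc, ← hd] at this
        rw [this]; ring
      set A' := addVar x E (0 + 1) / ((n + 1).choose (0 + 1) : ℝ) with hA'
      set B' := addVar x E (0 + 2) / ((n + 1).choose (0 + 2) : ℝ) with hB'
      have hn : (1 : ℝ) ≤ n := by
        have : 1 ≤ n := by omega
        exact_mod_cast this
      have key : ((n : ℝ) + 1) ^ 2 * B' ≤ ((n : ℝ) + 1) ^ 2 * A' ^ 2 := by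
        have e3 : ((n : ℝ) + 1) ^ 2 * B' = ((n : ℝ) + 1) * (((n : ℝ) - 1) * d + 2 * x * c) := by
          rw [← hB]; ring
        have e4 : ((n : ℝ) + 1) ^ 2 * A' ^ 2 = ((n : ℝ) * c + x) ^ 2 := by rw [← hA]; ring
        rw [e3, e4]
        have h7 : 0 ≤ ((n : ℝ) + 1) * ((n : ℝ) - 1) * (c ^ 2 - 1 * d) :=
          mul_nonneg (mul_nonneg hn1.le (by linarith)) (by linarith)
        nlinarith [sq_nonneg (c - x)]
      exact le_of_mul_le_mul_left key (by positivity)
    · set a := E k / (n.choose k : ℝ) with ha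
      have ha0 : 0 ≤ a := div_nonneg (h.nonneg _) (Nat.cast_nonneg _)
      have r0 := rec_p n k (by omega) x E h.top
      have hac : a * c ≤ b ^ 2 := h.newton k (by omega)
      have had : a * d ≤ b * c := by
        rcases hb0.eq_or_lt with hb00 | hbpos
        · have hE : E (k + 1) = 0 := by
            have h8 : (n.choose (k + 1) : ℝ) ≠ 0 := by
              exact_mod_cast (Nat.choose_pos (by omega : k + 1 ≤ n)).ne'
            have := hb00.symm
            rw [hb, div_eq_zero_iff] at this
            exact this.resolve_right h8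
          have hd00 : d = 0 := by
            rw [hd, h.prop _ (h.prop _ hE)]; simp
          rw [hd00, mul_zero]; positivity
        · rcases hc0.eq_or_lt with hc00 | hcpos
          · have hE : E (k + 1 + 1) = 0 := by
              have h8 : (n.choose (k + 1 + 1) : ℝ) ≠ 0 := by
                exact_mod_cast (Nat.choose_pos (by omega : k + 1 + 1 ≤ n)).ne'
              have := hc00.symm
              rw [hc, div_eq_zero_iff] at this
              exact this.resolve_right h8
            have hd00 : d = 0 := by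
              rw [hd, h.prop _ hE]; simp
            rw [hd00, mul_zero]; positivity
          · have h9 : (a * d) * (b * c) ≤ (b * c) * (b * c) := by
              calc (a * d) * (b * c) = (a * c) * (b * d) := by ring
                _ ≤ b ^ 2 * c ^ 2 := mul_le_mul hac hbd (by positivity) (by positivity)
                _ = (b * c) * (b * c) := by ring
            exact le_of_mul_le_mul_right h9 (by positivity)
      have hA : ((n : ℝ) + 1) * (addVar x E (k + 1) / (n + 1).choose (k + 1))
          = ((n : ℝ) - k) * b + ((k : ℝ) + 1) * x * a := r0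
      have hB : ((n : ℝ) + 1) * (addVar x E (k + 1 + 1) / (n + 1).choose (k + 1 + 1))
          = ((n : ℝ) - k - 1) * c + ((k : ℝ) + 2) * x * b := by
        rw [r1, ← hb, ← hc]; push_cast; ring
      have hC : ((n : ℝ) + 1) * (addVar x E (k + 1 + 2) / (n + 1).choose (k + 1 + 2))
          = ((n : ℝ) - k - 2) * d + ((k : ℝ) + 3) * x * c := by
        have := r2
        rw [← hc] at this
        rw [this]; push_cast; ring
      set A' := addVar x E (k + 1) / ((n + 1).choose (k + 1) : ℝ) with hA'
      set B' := addVar x E (k + 1 + 1) / ((n + 1).choose (k + 1 + 1) : ℝ) with hB'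
      set C' := addVar x E (k + 1 + 2) / ((n + 1).choose (k + 1 + 2) : ℝ) with hC'
      push_cast at hkn
      have key : ((n : ℝ) + 1) ^ 2 * (A' * C') ≤ ((n : ℝ) + 1) ^ 2 * B' ^ 2 := by
        have e3 : ((n : ℝ) + 1) ^ 2 * (A' * C')
            = (((n : ℝ) - k) * b + ((k : ℝ) + 1) * x * a) *
              (((n : ℝ) - k - 2) * d + ((k : ℝ) + 3) * x * c) := by
          rw [← hA, ← hC]; ring
        have e4 : ((n : ℝ) + 1) ^ 2 * B' ^ 2
            = (((n : ℝ) - k - 1) * c + ((k : ℝ) + 2) * x * b) ^ 2 := by rw [← hB]; ring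
        rw [e3, e4]
        have hk0 : (0 : ℝ) ≤ k := Nat.cast_nonneg _
        have g1 : 0 ≤ (((n : ℝ) - k - 1) ^ 2 - 1) * (c ^ 2 - b * d) := by
          apply mul_nonneg _ (by linarith)
          nlinarith
        have g2 : 0 ≤ x * ((k : ℝ) + 1) * ((n : ℝ) - k - 2) * (b * c - a * d) := by
          apply mul_nonneg _ (by linarith)
          exact mul_nonneg (mul_nonneg hx (by linarith)) (by linarith)
        have g3 : 0 ≤ x ^ 2 * (((k : ℝ) + 2) ^ 2 - 1) * (b ^ 2 - a * c) := by
          apply mul_nonneg _ (by linarith)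
          exact mul_nonneg (sq_nonneg x) (by nlinarith)
        have g4 := sq_nonneg (c - x * b)
        nlinarith [g1, g2, g3, g4]
      exact le_of_mul_le_mul_left key (by positivity)

end Pool.Agent.KS6_78.ISP
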