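import Pool.Agent.KS6_78.ISP.Newton

open Finset

namespace Pool.Agent.KS6_78.ISP

lemma newt_base : Newt 0 (fun k => if k = 0 then 1 else 0) := by
  refine ⟨by simp, ?_, ?_, ?_, ?_⟩
  · intro k; split_ifs <;> norm_num
  · intro k _; simp
  · intro k hk; simp; omega
  · intro k hk; omega

lemma newt_pad {n m : ℕ} {E : ℕ → ℝ} (h : Newt n E) (hnm : n ≤ m) : Newt m E := by
  induction m, hnm using Nat.le_induction with
  | base => exact h
  | succ m _ ih =>
    have h1 := ih.step (x := 0) le_rfl
    have h2 : addVar 0 E = E := by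
      funext k
      rcases k with _ | k
      · rfl
      · simp [addVar]
    rwa [h2] at h1

lemma newt_finset {V : Type*} [DecidableEq V] (x : V → ℝ) (hx : ∀ v, 0 ≤ x v) (T : Finset V) :
    Newt T.card (fun k => ∑ S ∈ T.powersetCard k, ∏ v ∈ S, x v) := by
  induction T using Finset.induction_on with
  | empty =>
    have h2 : (fun k => ∑ S ∈ (∅ : Finset V).powersetCard k, ∏ v ∈ S, x v)
        = (fun k => if k = 0 then 1 else 0) := by
      funext k
      rcases k with _ | k
      · simp
      · rw [powersetCard_eq_empty.2 (by simp)]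
        simp
    rw [h2, card_empty]
    exact newt_base
  | insert v T hv ih =>
    have h1 := ih.step (hx v)
    rw [card_insert_of_notMem hv]
    have h2 : (fun k => ∑ S ∈ (insert v T).powersetCard k, ∏ w ∈ S, x w)
        = addVar (x v) (fun k => ∑ S ∈ T.powersetCard k, ∏ w ∈ S, x w) := by
      funext k
      rcases k with _ | k
      · simp [addVar]
      · simp only [addVar]
        rw [powersetCard_succ_insert hv, sum_union, sum_image, mul_sum]
        · congr 1
          refine sum_congr rfl fun S hS => ?_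
          rw [prod_insert]
          exact fun h => hv ((mem_powersetCard.1 hS).1 h)
        · intro A hA B hB hAB
          have hA' : v ∉ A := fun h => hv ((mem_powersetCard.1 (by exact_mod_cast hA)).1 h)
          have hB' : v ∉ B := fun h => hv ((mem_powersetCard.1 (by exact_mod_cast hB)).1 h)
          have := congrArg (fun S => S.erase v) hAB
          simpa [erase_insert hA', erase_insert hB'] using this
        · rw [disjoint_left]
          intro S hS hS'
          obtain ⟨R, _, rfl⟩ := mem_image.1 hS'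
          exact hv ((mem_powersetCard.1 hS).1 (mem_insert_self v R))
    rw [h2]
    exact h1

lemma macl_step {n : ℕ} {E : ℕ → ℝ} (h : Newt n E) (k : ℕ) (hk : k + 2 ≤ n) :
    (E (k + 2) / n.choose (k + 2)) ^ (k + 1) ≤ (E (k + 1) / n.choose (k + 1)) ^ (k + 2) := by
  have hnn : ∀ k, 0 ≤ E k / (n.choose k : ℝ) :=
    fun k => div_nonneg (h.nonneg _) (Nat.cast_nonneg _)
  induction k with
  | zero =>
    have h1 := h.newton 0 hk
    rw [h.zero] at h1
    simpa using h1
  | succ k ih =>
    have ih' := ih (by omega)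
    have h1 := h.newton (k + 1) (by omega)
    rcases (hnn (k + 2)).eq_or_lt with h0 | hpos
    · have hE : E (k + 2) = 0 := by
        have h8 : (n.choose (k + 2) : ℝ) ≠ 0 := by
          exact_mod_cast (Nat.choose_pos (by omega : k + 2 ≤ n)).ne'
        have := h0.symm
        rw [div_eq_zero_iff] at this
        exact this.resolve_right h8
      have hE' : E (k + 1 + 2) = 0 := h.prop _ hE
      rw [hE']
      simp only [zero_div]
      rw [zero_pow (by omega)]
      exact pow_nonneg (hnn _) _
    · set a := E (k + 1) / (n.choose (k + 1) : ℝ) with ha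
      set b := E (k + 2) / (n.choose (k + 2) : ℝ) with hb
      set d := E (k + 1 + 2) / (n.choose (k + 1 + 2) : ℝ) with hd
      have ha0 : 0 ≤ a := hnn _
      have hd0 : 0 ≤ d := hnn _
      have h1' : a * d ≤ b ^ 2 := h1
      have h2 : d ^ (k + 2) * b ^ (k + 1) ≤ b ^ (k + 3) * b ^ (k + 1) := by
        calc d ^ (k + 2) * b ^ (k + 1) ≤ d ^ (k + 2) * a ^ (k + 2) :=
              mul_le_mul_of_nonneg_left ih' (pow_nonneg hd0 _)
          _ = (a * d) ^ (k + 2) := by rw [mul_pow]; ring
          _ ≤ (b ^ 2) ^ (k + 2) := pow_le_pow_left₀ (by positivity) h1' _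
          _ = b ^ (k + 3) * b ^ (k + 1) := by rw [← pow_mul, ← pow_add]; congr 1; ring
      exact le_of_mul_le_mul_right h2 (pow_pos hpos _)

lemma macl {n : ℕ} {E : ℕ → ℝ} (h : Newt n E) (s l : ℕ) (hs : 1 ≤ s) (hsl : s ≤ l) (hl : l ≤ n) :
    (E l / n.choose l) ^ s ≤ (E s / n.choose s) ^ l := by
  have hnn : ∀ k, 0 ≤ E k / (n.choose k : ℝ) :=
    fun k => div_nonneg (h.nonneg _) (Nat.cast_nonneg _)
  induction l, hsl using Nat.le_induction with
  | base => exact le_rfl
  | succ l hsl ih =>
    have ih' := ih (by omega)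
    obtain ⟨k, rfl⟩ : ∃ k, l = k + 1 := ⟨l - 1, by omega⟩
    have h1 := macl_step h k hl
    have h2 : ((E (k + 2) / (n.choose (k + 2) : ℝ)) ^ s) ^ (k + 1)
        ≤ ((E s / (n.choose s : ℝ)) ^ (k + 2)) ^ (k + 1) := by
      calc ((E (k + 2) / (n.choose (k + 2) : ℝ)) ^ s) ^ (k + 1)
          = ((E (k + 2) / (n.choose (k + 2) : ℝ)) ^ (k + 1)) ^ s := by
            rw [← pow_mul, ← pow_mul, mul_comm]
        _ ≤ ((E (k + 1) / (n.choose (k + 1) : ℝ)) ^ (k + 2)) ^ s :=
            pow_le_pow_left₀ (pow_nonneg (hnn _) _) h1 _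
        _ = ((E (k + 1) / (n.choose (k + 1) : ℝ)) ^ s) ^ (k + 2) := by
            rw [← pow_mul, ← pow_mul, mul_comm]
        _ ≤ ((E s / (n.choose s : ℝ)) ^ (k + 1)) ^ (k + 2) :=
            pow_le_pow_left₀ (pow_nonneg (hnn _) _) ih' _
        _ = ((E s / (n.choose s : ℝ)) ^ (k + 2)) ^ (k + 1) := by
            rw [← pow_mul, ← pow_mul, mul_comm]
    exact le_of_pow_le_pow_left₀ (by omega) (pow_nonneg (hnn _) _) h2

section

variable {V : Type*} [Fintype V]

open Classical in
/-- Symmetrization: an inequality `c * P_l ^ p ≤ d * P_s ^ q` holds for all nonnegative weights as soon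
as it holds for those with independent support. -/
lemma symm_ineq' (G : SimpleGraph V) (l s p q : ℕ) (c d : ℝ) (hd : 0 ≤ d)
    (hbase : ∀ x : V → ℝ, (∀ v, 0 ≤ x v) →
      (∀ u v, x u ≠ 0 → x v ≠ 0 → ¬ G.Adj u v) → c * (P G l x) ^ p ≤ d * (P G s x) ^ q) :
    ∀ (k : ℕ) (x : V → ℝ), (∀ v, 0 ≤ x v) → (univ.filter fun v => x v ≠ 0).card = k →
      c * (P G l x) ^ p ≤ d * (P G s x) ^ q := by
  intro k
  induction k using Nat.strong_induction_on with
  | _ k ih =>
  intro x hx hk
  by_cases hcl : ∃ u v, x u ≠ 0 ∧ x v ≠ 0 ∧ G.Adj u v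
  · obtain ⟨u, v, hu, hv, huv⟩ := hcl
    obtain ⟨A, B, C, hA, hB, hC, hP⟩ := lin G l x hx huv
    obtain ⟨A', B', C', hA', hB', hC', hP'⟩ := lin G s x hx huv
    have hxx : Function.update (Function.update x u (x u)) v (x v) = x := by simp
    have e1 : P G l x = A + B * x u + C * x v := by rw [← hP, hxx]
    have e2 : P G s x = A' + B' * x u + C' * x v := by rw [← hP', hxx]
    have hne : u ≠ v := huv.ne
    have key : ∀ a b : ℝ, 0 ≤ a → 0 ≤ b → (a = 0 ∨ b = 0) →
        B * a + C * b = B * x u + C * x v →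
        B' * a + C' * b ≤ B' * x u + C' * x v →
        c * (P G l x) ^ p ≤ d * (P G s x) ^ q := by
      intro a b ha hb hab h1 h2
      set y := Function.update (Function.update x u a) v b with hy
      have hyv : y v = b := by rw [hy, Function.update_self]
      have hyu : y u = a := by rw [hy, Function.update_of_ne hne, Function.update_self]
      have hyw : ∀ w, w ≠ u → w ≠ v → y w = x w := fun w h1 h2 => by
        rw [hy, Function.update_of_ne h2, Function.update_of_ne h1]
      have hy0 : ∀ w, 0 ≤ y w := by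
        intro w
        by_cases hwv : w = v
        · rw [hwv, hyv]; exact hb
        · by_cases hwu : w = u
          · rw [hwu, hyu]; exact ha
          · rw [hyw w hwu hwv]; exact hx w
      have hlt : (univ.filter fun w => y w ≠ 0).card < k := by
        rw [← hk]
        apply card_lt_card
        rw [ssubset_iff_subset_ne]
        constructor
        · intro w hw
          simp only [mem_filter, mem_univ, true_and] at hw ⊢
          by_cases hwv : w = v
          · rw [hwv]; exact hv
          · by_cases hwu : w = u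
            · rw [hwu]; exact hu
            · rw [← hyw w hwu hwv]; exact hw
        · intro heq
          rcases hab with h | h
          · have : u ∈ univ.filter fun w => y w ≠ 0 := by
              rw [heq]; simp [hu]
            simp [hyu, h] at this
          · have : v ∈ univ.filter fun w => y w ≠ 0 := by
              rw [heq]; simp [hv]
            simp [hyv, h] at this
      have h5 := ih _ hlt y hy0 rfl
      have e3 : P G l y = P G l x := by rw [hy, hP, e1]; linarith
      have e4 : P G s y ≤ P G s x := by rw [hy, hP', e2]; linarith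
      rw [e3] at h5
      exact h5.trans (mul_le_mul_of_nonneg_left
        (pow_le_pow_left₀ (P_nonneg G s y hy0) e4 q) hd)
    have hxu := hx u
    have hxv := hx v
    rcases hB.eq_or_lt with hB0 | hBpos
    · refine key 0 (x v) le_rfl hxv (Or.inl rfl) ?_ ?_
      · rw [← hB0]; ring
      · nlinarith [mul_nonneg hB' hxu]
    rcases hC.eq_or_lt with hC0 | hCpos
    · refine key (x u) 0 hxu le_rfl (Or.inr rfl) ?_ ?_
      · rw [← hC0]; ring
      · nlinarith [mul_nonneg hC' hxv]
    rcases le_total (B' * C) (C' * B) with h | h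
    · refine key (x u + x v * C / B) 0 (by positivity) le_rfl (Or.inr rfl) ?_ ?_
      · field_simp
        ring
      · have h6 : B' * (x v * C / B) ≤ C' * x v := by
          rw [← mul_div_assoc, div_le_iff₀ hBpos]
          nlinarith [mul_le_mul_of_nonneg_left h hxv]
        rw [mul_add]
        linarith
    · refine key 0 (x v + x u * B / C) le_rfl (by positivity) (Or.inl rfl) ?_ ?_
      · field_simp
        ring
      · have h6 : C' * (x u * B / C) ≤ B' * x u := by
          rw [← mul_div_assoc, div_le_iff₀ hCpos]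
          nlinarith [mul_le_mul_of_nonneg_left h hxu]
        rw [mul_add]
        linarith
  · push Not at hcl
    exact hbase x hx hcl


open Classical in
/-- The Fisher–Ryan inequalities: `C(m,s)^l * i_l^s ≤ C(m,l)^s * i_s^l` for `1 ≤ s ≤ l ≤ m`, when no
independent set has more than `m` vertices. -/
theorem fisher_ryan (G : SimpleGraph V) (m s l : ℕ) (hs : 1 ≤ s) (hsl : s ≤ l) (hlm : l ≤ m)
    (hα : ∀ A : Finset V, G.IsIndepSet A → A.card ≤ m) :
    (m.choose s) ^ l * (indCount G l) ^ s ≤ (m.choose l) ^ s * (indCount G s) ^ l := by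
  have h := symm_ineq' G l s s l ((m.choose s : ℝ) ^ l) ((m.choose l : ℝ) ^ s) (by positivity) ?_ _
    (fun _ => (1 : ℝ)) (fun _ => zero_le_one) rfl
  · rw [P_one, P_one] at h
    exact_mod_cast h
  · intro x hx hcl
    set T : Finset V := univ.filter fun v => x v ≠ 0 with hT
    have hTi : G.IsIndepSet T := by
      intro a ha b hb _
      have ha' : x a ≠ 0 := by simpa [hT] using ha
      have hb' : x b ≠ 0 := by simpa [hT] using hb
      exact hcl a b ha' hb'
    have hTm := hα T hTi
    have h1 : P G l x ≤ ∑ S ∈ T.powersetCard l, ∏ v ∈ S, x v := by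
      unfold P
      have : ∑ S ∈ indSets G l, ∏ v ∈ S, x v
          = ∑ S ∈ (indSets G l).filter (fun S => S ⊆ T), ∏ v ∈ S, x v := by
        rw [sum_filter]
        refine sum_congr rfl fun S hS => ?_
        split_ifs with hST
        · rfl
        · obtain ⟨w, hwS, hwT⟩ := not_subset.1 hST
          refine prod_eq_zero hwS ?_
          by_contra hne
          exact hwT (by simp [hT, hne])
      rw [this]
      refine sum_le_sum_of_subset_of_nonneg ?_ (fun S _ _ => prod_nonneg fun w _ => hx w)
      intro S hS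
      obtain ⟨h3, h4⟩ := mem_filter.1 hS
      exact mem_powersetCard.2 ⟨h4, (mem_indSets.1 h3).2⟩
    have h2 : ∑ S ∈ T.powersetCard s, ∏ v ∈ S, x v ≤ P G s x := by
      unfold P
      refine sum_le_sum_of_subset_of_nonneg ?_ (fun S _ _ => prod_nonneg fun w _ => hx w)
      intro S hS
      obtain ⟨h3, h4⟩ := mem_powersetCard.1 hS
      refine mem_indSets.2 ⟨?_, h4⟩
      intro a ha b hb hab
      exact hTi (by exact_mod_cast h3 (by exact_mod_cast ha))
        (by exact_mod_cast h3 (by exact_mod_cast hb)) hab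
    have h3 := macl (newt_pad (newt_finset x hx T) hTm) s l hs hsl hlm
    have hcs : (0 : ℝ) < (m.choose s : ℝ) := by exact_mod_cast Nat.choose_pos (by omega : s ≤ m)
    have hcl' : (0 : ℝ) < (m.choose l : ℝ) := by exact_mod_cast Nat.choose_pos hlm
    rw [div_pow, div_pow, div_le_div_iff₀ (pow_pos hcl' _) (pow_pos hcs _)] at h3
    have hE0 : 0 ≤ ∑ S ∈ T.powersetCard s, ∏ v ∈ S, x v :=
      sum_nonneg fun S _ => prod_nonneg fun v _ => hx v
    calc (m.choose s : ℝ) ^ l * (P G l x) ^ s
        ≤ (m.choose s : ℝ) ^ l * (∑ S ∈ T.powersetCard l, ∏ v ∈ S, x v) ^ s :=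
          mul_le_mul_of_nonneg_left (pow_le_pow_left₀ (P_nonneg G l x hx) h1 s) (by positivity)
      _ ≤ (m.choose l : ℝ) ^ s * (∑ S ∈ T.powersetCard s, ∏ v ∈ S, x v) ^ l := by
          rw [mul_comm, mul_comm ((m.choose l : ℝ) ^ s)]; exact h3
      _ ≤ (m.choose l : ℝ) ^ s * (P G s x) ^ l :=
          mul_le_mul_of_nonneg_left (pow_le_pow_left₀ hE0 h2 l) (by positivity)

/-- The general lower bound: `S < L` precedes `L`, `J ≤ L`, and `J` does not come after `K`. -/
theorem lower_pairs (G : SimpleGraph V) {m : ℕ} (π : Equiv.Perm (Fin m)) (h : IsISP π G)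
    (s l j κ : Fin m) (hsl : s < l) (hpre : π.symm s < π.symm l) (hjl : j ≤ l)
    (hj : π.symm j ≤ π.symm κ) :
    (m ^ ((κ : ℕ) + 1) * m.choose (j + 1)) ^ ((l : ℕ) - s) * (m.choose (s + 1)) ^ ((j : ℕ) + 1)
      ≤ (m.choose (κ + 1) * (Fintype.card V) ^ ((κ : ℕ) + 1)) ^ ((l : ℕ) - s)
        * (m.choose (l + 1)) ^ ((j : ℕ) + 1) := by
  have hα : ∀ A : Finset V, G.IsIndepSet A → A.card ≤ m := by
    intro A hA
    rw [← h.1]
    exact hA.card_le_indepNum
  have hsv : (s : ℕ) < l := hsl
  have hlm := l.2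
  have hjl' : (j : ℕ) ≤ l := hjl
  have hpos : 0 < indCount G (l + 1) := by
    obtain ⟨A, hA⟩ := G.exists_isNIndepSet_indepNum
    obtain ⟨B, hB, hBc⟩ := exists_subset_card_eq (show (l : ℕ) + 1 ≤ A.card by
      rw [hA.2, h.1]; omega)
    refine card_pos.2 ⟨B, mem_indSets.2 ⟨?_, hBc⟩⟩
    intro a ha b hb hab
    exact hA.1 (by exact_mod_cast hB (by exact_mod_cast ha))
      (by exact_mod_cast hB (by exact_mod_cast hb)) hab
  have h1 : indCount G (s + 1) ≤ indCount G (l + 1) := by
    have := h.2 (π.symm s) (π.symm l) hpre.le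
    rwa [Equiv.apply_symm_apply, Equiv.apply_symm_apply] at this
  have h2 : indCount G (j + 1) ≤ indCount G (κ + 1) := by
    have := h.2 (π.symm j) (π.symm κ) hj
    rwa [Equiv.apply_symm_apply, Equiv.apply_symm_apply] at this
  have f1 := fisher_ryan G m (s + 1) (l + 1) (by omega) (by omega) (by omega) hα
  have f2 := fisher_ryan G m (j + 1) (l + 1) (by omega) (by omega) (by omega) hα
  have h0 := zykov G m (κ + 1) (by omega) hα
  have eD : (l : ℕ) - s = (l + 1) - (s + 1) := by omega
  rw [eD]
  set S := (s : ℕ) + 1 with hS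
  set L := (l : ℕ) + 1 with hL
  set J := (j : ℕ) + 1 with hJ
  set K := (κ : ℕ) + 1 with hK
  set D := L - S with hD
  have hSD : S + D = L := by omega
  have h3 : (m.choose S) ^ L ≤ (m.choose L) ^ S * (indCount G L) ^ D := by
    have h4 : (m.choose S) ^ L * (indCount G L) ^ S
        ≤ ((m.choose L) ^ S * (indCount G L) ^ D) * (indCount G L) ^ S := by
      calc (m.choose S) ^ L * (indCount G L) ^ S ≤ (m.choose L) ^ S * (indCount G S) ^ L := f1
        _ ≤ (m.choose L) ^ S * (indCount G L) ^ L :=
            Nat.mul_le_mul_left _ (Nat.pow_le_pow_left h1 _)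
        _ = ((m.choose L) ^ S * (indCount G L) ^ D) * (indCount G L) ^ S := by
            rw [mul_assoc, ← pow_add, add_comm D S, hSD]
    exact Nat.le_of_mul_le_mul_right h4 (pow_pos hpos S)
  have h5 : ((m.choose J) ^ D * (m.choose S) ^ J) ^ L
      ≤ ((m.choose L) ^ J * (indCount G J) ^ D) ^ L := by
    calc ((m.choose J) ^ D * (m.choose S) ^ J) ^ L
        = ((m.choose J) ^ L) ^ D * ((m.choose S) ^ L) ^ J := by
          rw [mul_pow, ← pow_mul, ← pow_mul, ← pow_mul, ← pow_mul, mul_comm D L, mul_comm J L]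
      _ ≤ ((m.choose J) ^ L) ^ D * ((m.choose L) ^ S * (indCount G L) ^ D) ^ J :=
          Nat.mul_le_mul_left _ (Nat.pow_le_pow_left h3 _)
      _ = ((m.choose L) ^ S) ^ J * ((m.choose J) ^ L * (indCount G L) ^ J) ^ D := by
          rw [mul_pow, mul_pow, ← pow_mul (indCount G L) D J, ← pow_mul (indCount G L) J D,
            mul_comm D J]
          ring
      _ ≤ ((m.choose L) ^ S) ^ J * ((m.choose L) ^ J * (indCount G J) ^ L) ^ D :=
          Nat.mul_le_mul_left _ (Nat.pow_le_pow_left f2 _)
      _ = ((m.choose L) ^ J * (indCount G J) ^ D) ^ L := by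
          rw [mul_pow, mul_pow, ← pow_mul, ← pow_mul, ← pow_mul, ← pow_mul, ← pow_mul,
            mul_comm L D, ← mul_assoc, ← pow_add, ← hSD]
          congr 2
          ring
  have h6 : (m.choose J) ^ D * (m.choose S) ^ J ≤ (m.choose L) ^ J * (indCount G J) ^ D :=
    (Nat.pow_le_pow_iff_left (by omega)).1 h5
  calc (m ^ K * m.choose J) ^ D * (m.choose S) ^ J
      = (m ^ K) ^ D * ((m.choose J) ^ D * (m.choose S) ^ J) := by rw [mul_pow]; ring
    _ ≤ (m ^ K) ^ D * ((m.choose L) ^ J * (indCount G J) ^ D) := Nat.mul_le_mul_left _ h6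
    _ ≤ (m ^ K) ^ D * ((m.choose L) ^ J * (indCount G K) ^ D) :=
        Nat.mul_le_mul_left _ (Nat.mul_le_mul_left _ (Nat.pow_le_pow_left h2 _))
    _ = (m ^ K * indCount G K) ^ D * (m.choose L) ^ J := by rw [mul_pow]; ring
    _ ≤ (m.choose K * (Fintype.card V) ^ K) ^ D * (m.choose L) ^ J :=
        Nat.mul_le_mul_right _ (Nat.pow_le_pow_left h0 _)

end

end Pool.Agent.KS6_78.ISP
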