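import Pool.Agent.KS6_78.ISP.Fin

open Finset

namespace Pool.Agent.KS6_78.ISP

lemma ge_m {m n : ℕ} {π : Equiv.Perm (Fin m)} (h : n ∈ orders π) : m ≤ n := by
  obtain ⟨G, hG⟩ := h
  obtain ⟨A, hA⟩ := G.exists_isNIndepSet_indepNum
  have h3 := card_le_univ A
  rwa [hA.2, hG.1, Fintype.card_fin] at h3

lemma perm3 : ∀ π : Equiv.Perm (Fin 3), π = Fin.cycleRange 0 ∨ π = Fin.cycleRange 1 ∨
    π = Fin.cycleRange 2 ∨ π = Equiv.swap 1 2 ∨ π = (Fin.cycleRange 2)⁻¹ ∨ π = Equiv.swap 0 2 := by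
  decide

lemma perm2 : ∀ π : Equiv.Perm (Fin 2), π = Fin.cycleRange 0 ∨ π = Equiv.swap 0 1 := by
  decide

lemma mono_of_three {π : Equiv.Perm (Fin 3)} {f : ℕ → ℕ} (h1 : f ((π 0 : ℕ) + 1) ≤ f ((π 1 : ℕ) + 1))
    (h2 : f ((π 1 : ℕ) + 1) ≤ f ((π 2 : ℕ) + 1)) :
    ∀ i j : Fin 3, i ≤ j → f ((π i : ℕ) + 1) ≤ f ((π j : ℕ) + 1) := by
  intro i j hij
  fin_cases i <;> fin_cases j <;> first | exact le_rfl | exact h1 | exact h2 | exact h1.trans h2 |
    (exfalso; revert hij; decide)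

theorem table2 (π : Equiv.Perm (Fin 2)) :
    IsLeast (orders π) (if π 0 = 0 then 4 else 2) := by
  rcases perm2 π with rfl | rfl
  · have h := exact_cycle 2 0 (fun _ => rfl)
    have e : (Fin.cycleRange (0 : Fin 2)) 0 = 0 := by decide
    rw [if_pos e]
    simpa using h
  · have e : ¬ (Equiv.swap (0 : Fin 2) 1) 0 = 0 := by decide
    rw [if_neg e]
    refine ⟨?_, fun n hn => ge_m hn⟩
    refine mem_orders (G := blk 2 1 0) ⟨blk_indepNum 2 1 0 (by omega) (by omega), ?_⟩ (by simp)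
    intro i j hij
    have c2 : indCount (blk 2 1 0) 2 = 1 := by rw [blk_count _ _ _ _ le_rfl]; rfl
    have c1 : indCount (blk 2 1 0) 1 = 2 := by rw [blk_count_one]
    have v0 : ((Equiv.swap (0 : Fin 2) 1 0 : Fin 2) : ℕ) = 1 := by decide
    have v1 : ((Equiv.swap (0 : Fin 2) 1 1 : Fin 2) : ℕ) = 0 := by decide
    have h01 : indCount (blk 2 1 0) (((Equiv.swap (0 : Fin 2) 1 0 : Fin 2) : ℕ) + 1)
        ≤ indCount (blk 2 1 0) (((Equiv.swap (0 : Fin 2) 1 1 : Fin 2) : ℕ) + 1) := by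
      rw [v0, v1, c2, zero_add, c1]
      omega
    fin_cases i <;> fin_cases j <;> first | exact le_rfl | exact h01 |
      (exfalso; revert hij; decide)

theorem table3 (π : Equiv.Perm (Fin 3)) :
    IsLeast (orders π) (if π 0 = 1 then 27 else if π 0 = 2 then 3 else if π 1 = 1 then 9 else 6) := by
  have c31 : indCount (blk 3 1 0) 1 = 3 := by rw [blk_count_one]
  have c32 : indCount (blk 3 1 0) 2 = 3 := by rw [blk_count _ _ _ _ le_rfl]; rfl
  have c33 : indCount (blk 3 1 0) 3 = 1 := by rw [blk_count _ _ _ _ (by omega)]; rfl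
  have d1 : indCount (blk 3 2 0) 1 = 6 := by rw [blk_count_one]
  have d2 : indCount (blk 3 2 0) 2 = 12 := by rw [blk_count _ _ _ _ le_rfl]; rfl
  have d3 : indCount (blk 3 2 0) 3 = 8 := by rw [blk_count _ _ _ _ (by omega)]; rfl
  rcases perm3 π with rfl | rfl | rfl | rfl | rfl | rfl
  · have h := exact_cycle 3 0 (by omega)
    rw [if_neg (by decide), if_neg (by decide), if_pos (by decide)]
    simpa using h
  · have h := exact_cycle 3 1 (by omega)
    rw [if_pos (by decide)]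
    have e : Nat.choose 3 (((1 : Fin 3) : ℕ) + 1) * 3 ^ (((1 : Fin 3) : ℕ) + 1) = 27 := by decide
    rw [e] at h
    exact h
  · have h := exact_cycle 3 2 (by omega)
    rw [if_pos (by decide)]
    have e : Nat.choose 3 (((2 : Fin 3) : ℕ) + 1) * 3 ^ (((2 : Fin 3) : ℕ) + 1) = 27 := by decide
    rw [e] at h
    exact h
  · rw [if_neg (by decide), if_neg (by decide), if_neg (by decide)]
    constructor
    · refine mem_orders (G := blk 3 2 0) ⟨blk_indepNum 3 2 0 (by omega) (by omega), ?_⟩ (by simp)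
      have v0 : ((Equiv.swap (1 : Fin 3) 2 0 : Fin 3) : ℕ) = 0 := by decide
      have v1 : ((Equiv.swap (1 : Fin 3) 2 1 : Fin 3) : ℕ) = 2 := by decide
      have v2 : ((Equiv.swap (1 : Fin 3) 2 2 : Fin 3) : ℕ) = 1 := by decide
      apply mono_of_three
      · rw [v0, v1, zero_add, d1, d3]; omega
      · rw [v1, v2, d3, d2]; omega
    · rintro n ⟨G, hG⟩
      have key := lower G _ hG 0 2 0 0 rfl rfl (by decide) (by decide) (by decide)
      rw [Fintype.card_fin] at key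
      have key' : 27 ≤ n ^ 2 := by
        refine le_trans ?_ key
        decide
      by_contra hcon
      push Not at hcon
      interval_cases n <;> omega
  · rw [if_neg (by decide), if_pos (by decide)]
    refine ⟨?_, fun n hn => ge_m hn⟩
    refine mem_orders (G := blk 3 1 0) ⟨blk_indepNum 3 1 0 (by omega) (by omega), ?_⟩ (by simp)
    have v0 : (((Fin.cycleRange (2 : Fin 3))⁻¹ 0 : Fin 3) : ℕ) = 2 := by decide
    have v1 : (((Fin.cycleRange (2 : Fin 3))⁻¹ 1 : Fin 3) : ℕ) = 0 := by decide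
    have v2 : (((Fin.cycleRange (2 : Fin 3))⁻¹ 2 : Fin 3) : ℕ) = 1 := by decide
    apply mono_of_three
    · rw [v0, v1, zero_add, c31, c33]; omega
    · rw [v1, v2, zero_add, c31, c32]
  · rw [if_neg (by decide), if_pos (by decide)]
    refine ⟨?_, fun n hn => ge_m hn⟩
    refine mem_orders (G := blk 3 1 0) ⟨blk_indepNum 3 1 0 (by omega) (by omega), ?_⟩ (by simp)
    have v0 : ((Equiv.swap (0 : Fin 3) 2 0 : Fin 3) : ℕ) = 2 := by decide
    have v1 : ((Equiv.swap (0 : Fin 3) 2 1 : Fin 3) : ℕ) = 1 := by decide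
    have v2 : ((Equiv.swap (0 : Fin 3) 2 2 : Fin 3) : ℕ) = 0 := by decide
    apply mono_of_three
    · rw [v0, v1, c33, c32]; omega
    · rw [v1, v2, zero_add, c31, c32]

end Pool.Agent.KS6_78.ISP
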