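import Pool.Agent.KS6_78.ISP.Ident

open Finset

namespace Pool.Agent.KS6_78.ISP

/-- `m` disjoint copies of `K_a`, completely joined to the complement of a star `K_{1,q}` on
`Fin r` (centre `0`, leaves `1, …, q`; the other elements of `Fin r` are adjacent to everything). -/
def blkStar (m a q r : ℕ) : SimpleGraph ((Fin m × Fin a) ⊕ Fin r) where
  Adj x y := x ≠ y ∧ (∀ p p', x = Sum.inl p → y = Sum.inl p' → p.1 = p'.1) ∧
    (∀ i j : Fin r, x = Sum.inr i → y = Sum.inr j →
      ¬ ((i : ℕ) = 0 ∧ (j : ℕ) ≤ q) ∧ ¬ ((j : ℕ) = 0 ∧ (i : ℕ) ≤ q))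
  symm := ⟨fun x y h => ⟨h.1.symm, fun p q hp hq => (h.2.1 q p hq hp).symm,
    fun i j hi hj => (h.2.2 j i hj hi).symm⟩⟩
  loopless := ⟨fun x h => h.1 rfl⟩

lemma star_nadj {m a q r : ℕ} {x y : (Fin m × Fin a) ⊕ Fin r} (hne : x ≠ y)
    (h : ¬ (blkStar m a q r).Adj x y) :
    (∃ p p', x = Sum.inl p ∧ y = Sum.inl p' ∧ p.1 ≠ p'.1) ∨
    (∃ i j, x = Sum.inr i ∧ y = Sum.inr j ∧
      (((i : ℕ) = 0 ∧ (j : ℕ) ≤ q) ∨ ((j : ℕ) = 0 ∧ (i : ℕ) ≤ q))) := by
  by_contra hcon
  push Not at hcon
  refine h ⟨hne, fun p p' hp hq => hcon.1 p p' hp hq, fun i j hi hj => ?_⟩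
  have := hcon.2 i j hi hj
  exact ⟨fun h => absurd h.2 (not_le.2 (this.1 h.1)), fun h => absurd h.2 (not_le.2 (this.2 h.1))⟩

lemma blk_imp_star {m a q r : ℕ} {A : Finset ((Fin m × Fin a) ⊕ Fin r)}
    (h : (blk m a r).IsIndepSet A) : (blkStar m a q r).IsIndepSet A := by
  intro x hx y hy hne hadj
  obtain ⟨p, p', hp, hp', hne'⟩ := blk_nadj hne (h hx hy hne)
  exact hne' (hadj.2.1 p p' hp hp')

lemma star_count_three (m a q r k : ℕ) (hk : 3 ≤ k) :
    indCount (blkStar m a q r) k = m.choose k * a ^ k := by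
  classical
  rw [← blk_count m a r k (by omega)]
  unfold indCount
  congr 1
  ext A
  rw [mem_indSets, mem_indSets]
  constructor
  · rintro ⟨hA, hAc⟩
    refine ⟨?_, hAc⟩
    have hnoinr : ∀ i : Fin r, Sum.inr i ∉ A := by
      intro i hi
      have hc : 1 < (A.erase (Sum.inr i)).card := by
        rw [card_erase_of_mem hi]; omega
      obtain ⟨y, hy, z, hz, hyz⟩ := one_lt_card.1 hc
      obtain ⟨hyne, hyA⟩ := mem_erase.1 hy
      obtain ⟨hzne, hzA⟩ := mem_erase.1 hz
      have h1 := star_nadj hyne.symm (hA (by exact_mod_cast hi) (by exact_mod_cast hyA) hyne.symm)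
      have h2 := star_nadj hzne.symm (hA (by exact_mod_cast hi) (by exact_mod_cast hzA) hzne.symm)
      have h3 := star_nadj hyz (hA (by exact_mod_cast hyA) (by exact_mod_cast hzA) hyz)
      rcases h1 with ⟨p, p', hp, _⟩ | ⟨i1, j1, hi1, hj1, h1⟩
      · exact absurd hp (by simp)
      rcases h2 with ⟨p, p', hp, _⟩ | ⟨i2, j2, hi2, hj2, h2⟩
      · exact absurd hp (by simp)
      rcases h3 with ⟨p, p', hp, _⟩ | ⟨i3, j3, hi3, hj3, h3⟩
      · rw [hj1] at hp; exact absurd hp (by simp)
      simp only [Sum.inr.injEq] at hi1 hi2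
      rw [hj1] at hi3
      rw [hj2] at hj3
      simp only [Sum.inr.injEq] at hi3 hj3
      subst hi1
      subst hi2
      subst hi3
      subst hj3
      rw [hj1, hj2] at hyz
      rw [hj1] at hyne
      rw [hj2] at hzne
      have n1 : (j1 : ℕ) ≠ j2 := fun h => hyz (by rw [Fin.ext h])
      have n2 : (j1 : ℕ) ≠ i := fun h => hyne (by rw [Fin.ext h])
      have n3 : (j2 : ℕ) ≠ i := fun h => hzne (by rw [Fin.ext h])
      omega
    intro x hx y hy hne hadj
    rcases star_nadj hne (hA hx hy hne) with ⟨p, p', hp, hp', hne'⟩ | ⟨i, j, hi, _⟩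
    · exact hne' (hadj.2 p p' hp hp')
    · exact hnoinr i (by rw [← hi]; exact_mod_cast hx)
  · rintro ⟨hA, hAc⟩
    exact ⟨blk_imp_star hA, hAc⟩

lemma star_count_two (m a q r : ℕ) (hqr : q + 1 ≤ r) :
    indCount (blkStar m a q r) 2 = m.choose 2 * a ^ 2 + q := by
  classical
  rw [← blk_count m a r 2 le_rfl]
  let z : Fin r := ⟨0, by omega⟩
  let f : Fin q → Finset ((Fin m × Fin a) ⊕ Fin r) :=
    fun j => {Sum.inr z, Sum.inr ⟨(j : ℕ) + 1, by have := j.2; omega⟩}
  have hf : Function.Injective f := by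
    intro j j' h
    have h1 : (Sum.inr ⟨(j : ℕ) + 1, by have := j.2; omega⟩ : (Fin m × Fin a) ⊕ Fin r) ∈ f j' := by
      rw [← h]; exact mem_insert_of_mem (mem_singleton_self _)
    rcases mem_insert.1 h1 with h2 | h2
    · simp only [Sum.inr.injEq, z, Fin.mk.injEq] at h2
      omega
    · have h3 := mem_singleton.1 h2
      simp only [Sum.inr.injEq, Fin.mk.injEq] at h3
      exact Fin.ext (by omega)
  have hset : indSets (blkStar m a q r) 2 = indSets (blk m a r) 2 ∪ univ.image f := by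
    ext A
    rw [mem_union, mem_indSets, mem_indSets, mem_image]
    constructor
    · rintro ⟨hA, hAc⟩
      obtain ⟨x, y, hxy, rfl⟩ := card_eq_two.1 hAc
      rcases star_nadj hxy (hA (by simp) (by simp) hxy) with
        ⟨p, p', hp, hp', hne'⟩ | ⟨i, j, hi, hj, h⟩
      · left
        refine ⟨?_, hAc⟩
        intro u hu v hv huv hadj
        simp only [coe_insert, coe_singleton, Set.mem_insert_iff, Set.mem_singleton_iff] at hu hv
        rcases hu with rfl | rfl <;> rcases hv with rfl | rfl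
        · exact huv rfl
        · exact hne' (hadj.2 p p' hp hp')
        · exact hne' (hadj.2 p' p hp' hp).symm
        · exact huv rfl
      · right
        have hij : (i : ℕ) ≠ j := fun h => hxy (by rw [hi, hj, Fin.ext h])
        rcases h with ⟨h0, hq⟩ | ⟨h0, hq⟩
        · refine ⟨⟨(j : ℕ) - 1, by omega⟩, mem_univ _, ?_⟩
          have e1 : z = i := Fin.ext (by simp only [z]; omega)
          have e2 : (⟨((⟨(j : ℕ) - 1, by omega⟩ : Fin q) : ℕ) + 1, by
            have := j.2; simp only; omega⟩ : Fin r) = j := Fin.ext (by simp only; omega)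
          simp only [f]
          rw [e2, e1, hi, hj]
        · refine ⟨⟨(i : ℕ) - 1, by omega⟩, mem_univ _, ?_⟩
          have e1 : z = j := Fin.ext (by simp only [z]; omega)
          have e2 : (⟨((⟨(i : ℕ) - 1, by omega⟩ : Fin q) : ℕ) + 1, by
            have := i.2; simp only; omega⟩ : Fin r) = i := Fin.ext (by simp only; omega)
          simp only [f]
          rw [e2, e1, hi, hj, pair_comm]
    · rintro (⟨hA, hAc⟩ | ⟨j, _, rfl⟩)
      · exact ⟨blk_imp_star hA, hAc⟩
      · have hj := j.2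
        have hne : (Sum.inr z : (Fin m × Fin a) ⊕ Fin r) ≠ Sum.inr ⟨(j : ℕ) + 1, by omega⟩ := by
          intro h
          simp only [Sum.inr.injEq, z, Fin.mk.injEq] at h
          omega
        refine ⟨?_, card_pair hne⟩
        intro u hu v hv huv hadj
        simp only [f, coe_insert, coe_singleton, Set.mem_insert_iff, Set.mem_singleton_iff] at hu hv
        rcases hu with rfl | rfl <;> rcases hv with rfl | rfl
        · exact huv rfl
        · exact (hadj.2.2 _ _ rfl rfl).1 ⟨rfl, by simp only; omega⟩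
        · exact (hadj.2.2 _ _ rfl rfl).2 ⟨rfl, by simp only; omega⟩
        · exact huv rfl
  have hdisj : Disjoint (indSets (blk m a r) 2) (univ.image f) := by
    rw [disjoint_left]
    intro A hA hA'
    obtain ⟨j, _, rfl⟩ := mem_image.1 hA'
    have hj := j.2
    have hne : (Sum.inr z : (Fin m × Fin a) ⊕ Fin r) ≠ Sum.inr ⟨(j : ℕ) + 1, by omega⟩ := by
      intro h
      simp only [Sum.inr.injEq, z, Fin.mk.injEq] at h
      omega
    have h1 := (mem_indSets.1 hA).1 (by simp [f]) (by simp [f]) hne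
    obtain ⟨p, _, hp, _⟩ := blk_nadj hne h1
    exact absurd hp (by simp)
  rw [indCount, hset, card_union_of_disjoint hdisj, card_image_of_injective _ hf, card_univ,
    Fintype.card_fin]
  rfl

end Pool.Agent.KS6_78.ISP
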