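import Pool.Agent.KS6_78.ISP.Star

open Finset

namespace Pool.Agent.KS6_78.ISP

theorem exact_star (m : ℕ) (hm : 3 ≤ m) (π : Equiv.Perm (Fin m)) (s t z o J : Fin m)
    (hs : (s : ℕ) + 2 = m) (ht : (t : ℕ) + 1 = m) (hz : (z : ℕ) = 0) (ho : (o : ℕ) = 1)
    (hst : π.symm s < π.symm t) (hoz : π.symm o < π.symm z)
    (hinc : ∀ a b : Fin m, 2 ≤ (a : ℕ) → a < b → π.symm a < π.symm b)
    (hJ : π.symm J < π.symm z) (hJmax : ∀ b, π.symm b < π.symm z → b ≤ J) :
    IsLeast (orders π) (m.choose (J + 1) * m ^ ((J : ℕ) + 1)) := by
  have hJm := J.2
  constructor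
  · obtain ⟨L, hL, hLmax⟩ : ∃ L : Fin m, π.symm L ≤ π.symm o ∧
        ∀ b, π.symm b ≤ π.symm o → b ≤ L := by
      have hne : (univ.filter (fun b : Fin m => π.symm b ≤ π.symm o)).Nonempty :=
        ⟨o, by simp⟩
      refine ⟨(univ.filter (fun b : Fin m => π.symm b ≤ π.symm o)).max' hne, ?_, ?_⟩
      · have := max'_mem _ hne
        simpa using this
      · intro b hb
        exact le_max' _ _ (by simpa using hb)
    have hLm := L.2
    have hoL : (o : ℕ) ≤ L := hLmax o le_rfl
    have hLJ : (L : ℕ) ≤ J := hJmax L (hL.trans_lt hoz)
    set w : ℕ → ℕ := fun k => m.choose k * m ^ k with hw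
    have hw1 : w 1 = m * m := by simp [hw]
    have hw12 : w 1 < w 2 := w_strict m 1 2 le_rfl (by omega) (by omega) (by omega)
    have hw2L : w 2 ≤ w (L + 1) := w_mono m 2 (L + 1) (by omega) (by omega) (by omega)
    have hwLJ : w (L + 1) ≤ w (J + 1) := w_mono m (L + 1) (J + 1) (by omega) (by omega) (by omega)
    set q := w (L + 1) - w 2 with hq
    set r := w (J + 1) - m * m with hr
    have hqr : q + 1 ≤ r := by omega
    have hmr : m * m + r = w (J + 1) := by omega
    let val : Fin m → ℕ := fun x => if (x : ℕ) = 0 then J + 1 else if (x : ℕ) = 1 then L + 1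
      else x + 1
    have hc : ∀ x : Fin m, indCount (blkStar m m q r) ((x : ℕ) + 1) = w (val x) := by
      intro x
      simp only [val]
      split_ifs with h0 h1
      · rw [h0, zero_add, indCount_one, card_blk, hmr]
      · rw [h1, star_count_two m m q r hqr]
        change w 2 + q = w (L + 1)
        omega
      · rw [star_count_three m m q r _ (by omega)]
    have hval1 : ∀ x, 1 ≤ val x := by
      intro x
      simp only [val]
      split_ifs <;> omega
    have hvalm : ∀ x, val x ≤ m := by
      intro x
      have := x.2
      simp only [val]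
      split_ifs <;> omega
    have hvmono : ∀ x y : Fin m, π.symm x ≤ π.symm y → val x ≤ val y := by
      intro x y hxy
      rcases hxy.eq_or_lt with heq | hlt
      · rw [π.symm.injective heq]
      · have hne : x ≠ y := fun h => by rw [h] at hlt; exact lt_irrefl _ hlt
        have hneval : (x : ℕ) ≠ y := fun h => hne (Fin.ext h)
        simp only [val]
        split_ifs with h0 h1 h2 h3 h4 h5 h6 h7
        · omega
        · -- x = z, y = o
          have hx : x = z := Fin.ext (by omega)
          have hy : y = o := Fin.ext (by omega)
          rw [hx, hy] at hlt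
          exact absurd hoz (lt_asymm hlt)
        · have hx : x = z := Fin.ext (by omega)
          rw [hx] at hlt
          by_contra hcon
          have h8 := hinc y J (by omega) (by rw [Fin.lt_def]; omega)
          exact absurd (hJ.trans (hlt.trans h8)) (lt_irrefl _)
        · -- x = o, y = z
          omega
        · omega
        · have hx : x = o := Fin.ext (by omega)
          rw [hx] at hlt
          by_contra hcon
          have h8 := hinc y L (by omega) (by rw [Fin.lt_def]; omega)
          exact absurd (hL.trans_lt (hlt.trans h8)) (lt_irrefl _)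
        · have hy : y = z := Fin.ext (by omega)
          rw [hy] at hlt
          have : (x : ℕ) ≤ J := hJmax x hlt
          omega
        · have hy : y = o := Fin.ext (by omega)
          rw [hy] at hlt
          have : (x : ℕ) ≤ L := hLmax x hlt.le
          omega
        · by_contra hcon
          have h8 := hinc y x (by omega) (by rw [Fin.lt_def]; omega)
          exact absurd (hlt.trans h8) (lt_irrefl _)
    refine mem_orders (G := blkStar m m q r) ⟨?_, ?_⟩ (by rw [card_blk, hmr])
    · apply indepNum_eq
      · rw [star_count_three m m q r m hm]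
        simp only [Nat.choose_self, one_mul]
        exact pow_pos (by omega) m
      · intro k hk
        rw [star_count_three m m q r k (by omega), Nat.choose_eq_zero_of_lt hk, zero_mul]
    · intro i j hij
      rw [hc, hc]
      exact w_mono m _ _ (hval1 _) (hvmono _ _ (by simpa using hij)) (hvalm _)
  · rintro n ⟨G, hG⟩
    have e1 : m - ((s : ℕ) + 1) = 1 := by omega
    have e2 : (s : ℕ) + 1 = m - 1 := by omega
    have key := lower G π hG s t J z ht hz (by rw [Fin.lt_def]; omega) hst hJ.le
    rw [Fintype.card_fin, e1, e2, Nat.choose_symm (by omega : 1 ≤ m), Nat.choose_one_right,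
      pow_one, pow_one] at key
    exact key

end Pool.Agent.KS6_78.ISP
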