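import Pool.Agent.KS6_78.ISP.Pairs

open Finset

namespace Pool.Agent.KS6_78.ISP

theorem exact_turan (m a : ℕ) (ha : 1 ≤ a) (π : Equiv.Perm (Fin m)) (s l : Fin m)
    (hsl : (l : ℕ) = s + 1) (hC : m.choose (s + 1) = a * m.choose (s + 2))
    (hpre : π.symm s < π.symm l)
    (hsort : ∀ i j : Fin m, i ≤ j →
      m.choose ((π i : ℕ) + 1) * a ^ ((π i : ℕ) + 1)
        ≤ m.choose ((π j : ℕ) + 1) * a ^ ((π j : ℕ) + 1)) :
    IsLeast (orders π) (a * m) := by
  have hlm := l.2
  have hm : 1 ≤ m := by omega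
  constructor
  · refine mem_orders (G := blk m a 0) ⟨blk_indepNum m a 0 hm ha, ?_⟩
      (by rw [card_blk, add_zero, mul_comm])
    have hc : ∀ x : Fin m, indCount (blk m a 0) ((x : ℕ) + 1)
        = m.choose ((x : ℕ) + 1) * a ^ ((x : ℕ) + 1) := by
      intro x
      rcases Nat.eq_zero_or_pos (x : ℕ) with h0 | h0
      · rw [h0, zero_add, blk_count_one, Nat.choose_one_right, pow_one, add_zero]
      · rw [blk_count _ _ _ _ (by omega)]
    intro i j hij
    rw [hc, hc]
    exact hsort i j hij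
  · rintro n ⟨G, hG⟩
    have key := lower_pairs G π hG s l l l (by rw [Fin.lt_def]; omega) hpre le_rfl le_rfl
    rw [Fintype.card_fin] at key
    have eD : (l : ℕ) - s = 1 := by omega
    have eL : (l : ℕ) + 1 = s + 2 := by omega
    rw [eD, eL, hC, pow_one, pow_one] at key
    set c := m.choose ((s : ℕ) + 2) with hc
    set L := (s : ℕ) + 2 with hL
    have hcpos : 0 < c := Nat.choose_pos (by omega)
    have h1 : (a * m) ^ L * (c * c ^ L) ≤ n ^ L * (c * c ^ L) := by
      calc (a * m) ^ L * (c * c ^ L) = m ^ L * c * (a * c) ^ L := by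
            rw [mul_pow, mul_pow]; ring
        _ ≤ c * n ^ L * c ^ L := key
        _ = n ^ L * (c * c ^ L) := by ring
    have h2 : (a * m) ^ L ≤ n ^ L :=
      Nat.le_of_mul_le_mul_right h1 (Nat.mul_pos hcpos (pow_pos hcpos _))
    exact (Nat.pow_le_pow_iff_left (by omega)).1 h2

end Pool.Agent.KS6_78.ISP
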