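import Pool.Agent.KS6_78.ISP.Pairs

open Finset

namespace Pool.Agent.KS6_78.ISP

theorem exact_turan_gen (m a : ℕ) (ha : 1 ≤ a) (π : Equiv.Perm (Fin m)) (s l j z : Fin m)
    (hsl : (l : ℕ) = s + 1) (hz : (z : ℕ) = 0) (hC : m.choose (s + 1) = a * m.choose (s + 2))
    (hpre : π.symm s < π.symm l) (hjl : j ≤ l) (hjz : π.symm j ≤ π.symm z)
    (hsort : ∀ x y : Fin m, 1 ≤ (x : ℕ) → 1 ≤ (y : ℕ) → π.symm x ≤ π.symm y →
      m.choose ((x : ℕ) + 1) * a ^ ((x : ℕ) + 1) ≤ m.choose ((y : ℕ) + 1) * a ^ ((y : ℕ) + 1))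
    (hbefore : ∀ x : Fin m, π.symm x ≤ π.symm z →
      m.choose ((x : ℕ) + 1) * a ^ ((x : ℕ) + 1) ≤ m.choose ((j : ℕ) + 1) * a ^ ((j : ℕ) + 1))
    (hafter : ∀ x : Fin m, π.symm z < π.symm x →
      m.choose ((j : ℕ) + 1) * a ^ ((j : ℕ) + 1) ≤ m.choose ((x : ℕ) + 1) * a ^ ((x : ℕ) + 1)) :
    IsLeast (orders π) (m.choose ((j : ℕ) + 1) * a ^ ((j : ℕ) + 1)) := by
  have hlm := l.2
  have hm : 1 ≤ m := by omega
  constructor
  · have hle : m * a ≤ m.choose ((j : ℕ) + 1) * a ^ ((j : ℕ) + 1) := by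
      have := hbefore z le_rfl
      rw [hz, zero_add, Nat.choose_one_right, pow_one] at this
      exact this
    set N := m.choose ((j : ℕ) + 1) * a ^ ((j : ℕ) + 1) with hN
    refine mem_orders (G := blk m a (N - m * a)) ⟨blk_indepNum m a _ hm ha, ?_⟩
      (by rw [card_blk, Nat.add_sub_cancel' hle])
    have hc0 : ∀ x : Fin m, (x : ℕ) = 0 → indCount (blk m a (N - m * a)) ((x : ℕ) + 1) = N := by
      intro x hx
      rw [hx, zero_add, blk_count_one, Nat.add_sub_cancel' hle]
    have hc1 : ∀ x : Fin m, 1 ≤ (x : ℕ) → indCount (blk m a (N - m * a)) ((x : ℕ) + 1)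
        = m.choose ((x : ℕ) + 1) * a ^ ((x : ℕ) + 1) := by
      intro x hx
      rw [blk_count _ _ _ _ (by omega)]
    have hmono : ∀ x y : Fin m, π.symm x ≤ π.symm y →
        indCount (blk m a (N - m * a)) ((x : ℕ) + 1)
          ≤ indCount (blk m a (N - m * a)) ((y : ℕ) + 1) := by
      intro x y hxy
      rcases Nat.eq_zero_or_pos (x : ℕ) with hx | hx
      · rcases Nat.eq_zero_or_pos (y : ℕ) with hy | hy
        · rw [hc0 x hx, hc0 y hy]
        · rw [hc0 x hx, hc1 y hy]
          have hxz : x = z := Fin.ext (by omega)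
          apply hafter
          rw [← hxz]
          refine lt_of_le_of_ne hxy fun h => ?_
          have := π.symm.injective h
          rw [this] at hx
          omega
      · rcases Nat.eq_zero_or_pos (y : ℕ) with hy | hy
        · rw [hc1 x hx, hc0 y hy]
          have hyz : y = z := Fin.ext (by omega)
          apply hbefore
          rw [← hyz]
          exact hxy
        · rw [hc1 x hx, hc1 y hy]
          exact hsort x y hx hy hxy
    intro i i' hii
    exact hmono _ _ (by simpa using hii)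
  · rintro n ⟨G, hG⟩
    have key := lower_pairs G π hG s l j z (by rw [Fin.lt_def]; omega) hpre hjl hjz
    rw [Fintype.card_fin] at key
    have eD : (l : ℕ) - s = 1 := by omega
    have eL : (l : ℕ) + 1 = s + 2 := by omega
    rw [eD, eL, hC, pow_one, pow_one, hz, zero_add, pow_one, pow_one, Nat.choose_one_right] at key
    set c := m.choose ((s : ℕ) + 2) with hc
    set J := (j : ℕ) + 1 with hJ
    have hcpos : 0 < c := Nat.choose_pos (by omega)
    have h1 : (m.choose J * a ^ J) * (m * c ^ J) ≤ n * (m * c ^ J) := by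
      calc (m.choose J * a ^ J) * (m * c ^ J) = m * m.choose J * (a * c) ^ J := by
            rw [mul_pow]; ring
        _ ≤ m * n * c ^ J := key
        _ = n * (m * c ^ J) := by ring
    exact Nat.le_of_mul_le_mul_right h1 (Nat.mul_pos hm (pow_pos hcpos _))

end Pool.Agent.KS6_78.ISP
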