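import Pool.Agent.KS6_78.ISP.Fin

open Finset

namespace Pool.Agent.KS6_78.ISP

lemma bern (a b : ℝ) (ha : 0 ≤ a) (hb : 0 ≤ b) (k : ℕ) :
    a ^ (k + 1) + (k + 1) * a ^ k * (b - a) ≤ b ^ (k + 1) := by
  induction k with
  | zero => simp
  | succ k ih =>
    have h1 := mul_le_mul_of_nonneg_left ih hb
    have h2 : 0 ≤ ((k : ℝ) + 1) * a ^ k * (b - a) ^ 2 := by positivity
    push_cast
    calc a ^ (k + 1 + 1) + (k + 1 + 1) * a ^ (k + 1) * (b - a)
        = b * (a ^ (k + 1) + (k + 1) * a ^ k * (b - a)) - ((k : ℝ) + 1) * a ^ k * (b - a) ^ 2 := by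
          ring
      _ ≤ b * b ^ (k + 1) := by linarith
      _ = b ^ (k + 1 + 1) := by ring

lemma step (t k : ℕ) (a x : ℝ) (ha : 0 ≤ a) (hx : 0 ≤ x) :
    (t.choose (k + 1) : ℝ) * a ^ (k + 1) + (t.choose k : ℝ) * a ^ k * x
      ≤ ((t + 1).choose (k + 1) : ℝ) * ((t * a + x) / ((t : ℝ) + 1)) ^ (k + 1) := by
  have ht : (0 : ℝ) < (t : ℝ) + 1 := by positivity
  set b := (t * a + x) / ((t : ℝ) + 1) with hb
  have hb0 : 0 ≤ b := by positivity
  have h1 := bern a b ha hb0 k
  have h2 : (((t + 1).choose (k + 1) : ℕ) : ℝ) * ((k : ℝ) + 1) = ((t : ℝ) + 1) * (t.choose k : ℝ) := by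
    exact_mod_cast (Nat.add_one_mul_choose_eq t k).symm
  have h3 : (((t + 1).choose (k + 1) : ℕ) : ℝ) = (t.choose k : ℝ) + (t.choose (k + 1) : ℝ) := by
    exact_mod_cast Nat.choose_succ_succ t k
  have h4 : b - a = (x - a) / ((t : ℝ) + 1) := by
    rw [hb]; field_simp; ring
  have h5 := mul_le_mul_of_nonneg_left h1 (Nat.cast_nonneg ((t + 1).choose (k + 1)) : (0 : ℝ) ≤ _)
  refine le_trans (le_of_eq ?_) h5
  have h6 : (((t + 1).choose (k + 1) : ℕ) : ℝ) * (((k : ℝ) + 1) * a ^ k * (b - a))
      = (t.choose k : ℝ) * a ^ k * (x - a) := by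
    calc (((t + 1).choose (k + 1) : ℕ) : ℝ) * (((k : ℝ) + 1) * a ^ k * (b - a))
        = ((((t + 1).choose (k + 1) : ℕ) : ℝ) * ((k : ℝ) + 1)) * a ^ k * (b - a) := by ring
      _ = (((t : ℝ) + 1) * (t.choose k : ℝ)) * a ^ k * ((x - a) / ((t : ℝ) + 1)) := by rw [h2, h4]
      _ = (t.choose k : ℝ) * a ^ k * (x - a) := by field_simp
  rw [mul_add, h6, h3]
  ring

lemma E_bound {V : Type*} [DecidableEq V] (x : V → ℝ) (hx : ∀ v, 0 ≤ x v) (T : Finset V) :
    ∀ k : ℕ, ∑ S ∈ T.powersetCard k, ∏ v ∈ S, x v
      ≤ (T.card.choose k : ℝ) * ((∑ v ∈ T, x v) / T.card) ^ k := by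
  induction T using Finset.induction_on with
  | empty =>
    intro k
    rcases k with _ | k
    · simp
    · rw [powersetCard_eq_empty.2 (by simp)]
      simp
  | insert v T hv ih =>
    intro k
    rcases k with _ | k
    · simp
    · have hsplit : ∑ S ∈ (insert v T).powersetCard (k + 1), ∏ w ∈ S, x w
          = ∑ S ∈ T.powersetCard (k + 1), ∏ w ∈ S, x w
            + x v * ∑ S ∈ T.powersetCard k, ∏ w ∈ S, x w := by
        rw [powersetCard_succ_insert hv, sum_union, sum_image, mul_sum]
        · congr 1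
          refine sum_congr rfl fun S hS => ?_
          rw [prod_insert]
          exact fun h => hv ((mem_powersetCard.1 hS).1 h)
        · intro A hA B hB hAB
          have hA' : v ∉ A := fun h => hv ((mem_powersetCard.1 (by exact_mod_cast hA)).1 h)
          have hB' : v ∉ B := fun h => hv ((mem_powersetCard.1 (by exact_mod_cast hB)).1 h)
          have := congrArg (fun S => S.erase v) hAB
          simpa [erase_insert hA', erase_insert hB'] using this
        · rw [disjoint_left]
          intro S hS hS'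
          obtain ⟨R, _, rfl⟩ := mem_image.1 hS'
          exact hv ((mem_powersetCard.1 hS).1 (mem_insert_self v R))
      set a := (∑ w ∈ T, x w) / T.card with ha
      have ha0 : 0 ≤ a := div_nonneg (sum_nonneg fun w _ => hx w) (Nat.cast_nonneg _)
      have hta : (T.card : ℝ) * a = ∑ w ∈ T, x w := by
        rcases T.eq_empty_or_nonempty with rfl | hne
        · simp
        · have : (T.card : ℝ) ≠ 0 := by exact_mod_cast hne.card_pos.ne'
          rw [ha]; field_simp
      have h1 := ih (k + 1)
      have h2 := mul_le_mul_of_nonneg_left (ih k) (hx v)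
      have h3 := step T.card k a (x v) ha0 (hx v)
      rw [hsplit, card_insert_of_notMem hv, sum_insert hv, ← hta]
      push_cast
      have e : (x v + (T.card : ℝ) * a) / ((T.card : ℝ) + 1)
          = ((T.card : ℝ) * a + x v) / ((T.card : ℝ) + 1) := by rw [add_comm]
      rw [e]
      refine le_trans ?_ h3
      have h2' : x v * ((T.card.choose k : ℝ) * a ^ k) = (T.card.choose k : ℝ) * a ^ k * x v := by
        ring
      rw [h2'] at h2
      exact add_le_add h1 h2

lemma pad (t m k : ℕ) (e : ℝ) (he : 0 ≤ e) (h0 : t = 0 → e = 0) (htm : t ≤ m) :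
    (t.choose k : ℝ) * (e / t) ^ k ≤ (m.choose k : ℝ) * (e / m) ^ k := by
  rcases k with _ | k
  · simp
  induction m, htm using Nat.le_induction with
  | base => exact le_rfl
  | succ m htm ih =>
    refine ih.trans ?_
    have h := step m k (e / m) 0 (div_nonneg he (Nat.cast_nonneg _)) le_rfl
    rw [mul_zero, add_zero, add_zero] at h
    have hme : (m : ℝ) * (e / m) = e := by
      rcases Nat.eq_zero_or_pos m with hm | hm
      · have : e = 0 := h0 (by omega)
        rw [this]; simp
      · have : (m : ℝ) ≠ 0 := by exact_mod_cast hm.ne'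
        field_simp
    rw [hme] at h
    push_cast
    exact h

section

variable {V : Type*} [Fintype V]

open Classical in
/-- Symmetrization: an inequality `c * P_l ≤ d * P_s ^ q` holds for all nonnegative weights as soon
as it holds for those with independent support. -/
lemma symm_ineq (G : SimpleGraph V) (l s q : ℕ) (c d : ℝ) (hd : 0 ≤ d)
    (hbase : ∀ x : V → ℝ, (∀ v, 0 ≤ x v) →
      (∀ u v, x u ≠ 0 → x v ≠ 0 → ¬ G.Adj u v) → c * P G l x ≤ d * (P G s x) ^ q) :
    ∀ (k : ℕ) (x : V → ℝ), (∀ v, 0 ≤ x v) → (univ.filter fun v => x v ≠ 0).card = k →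
      c * P G l x ≤ d * (P G s x) ^ q := by
  intro k
  induction k using Nat.strong_induction_on with
  | _ k ih =>
  intro x hx hk
  by_cases hcl : ∃ u v, x u ≠ 0 ∧ x v ≠ 0 ∧ G.Adj u v
  · obtain ⟨u, v, hu, hv, huv⟩ := hcl
    obtain ⟨A, B, C, hA, hB, hC, hP⟩ := lin G l x hx huv
    obtain ⟨A', B', C', hA', hB', hC', hP'⟩ := lin G s x hx huv
    have hxx : Function.update (Function.update x u (x u)) v (x v) = x := by simp
    have e1 : P G l x = A + B * x u + C * x v := by rw [← hP, hxx]
    have e2 : P G s x = A' + B' * x u + C' * x v := by rw [← hP', hxx]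
    have hne : u ≠ v := huv.ne
    have key : ∀ a b : ℝ, 0 ≤ a → 0 ≤ b → (a = 0 ∨ b = 0) →
        B * a + C * b = B * x u + C * x v →
        B' * a + C' * b ≤ B' * x u + C' * x v →
        c * P G l x ≤ d * (P G s x) ^ q := by
      intro a b ha hb hab h1 h2
      set y := Function.update (Function.update x u a) v b with hy
      have hyv : y v = b := by rw [hy, Function.update_self]
      have hyu : y u = a := by rw [hy, Function.update_of_ne hne, Function.update_self]
      have hyw : ∀ w, w ≠ u → w ≠ v → y w = x w := fun w h1 h2 => by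
        rw [hy, Function.update_of_ne h2, Function.update_of_ne h1]
      have hy0 : ∀ w, 0 ≤ y w := by
        intro w
        by_cases hwv : w = v
        · rw [hwv, hyv]; exact hb
        · by_cases hwu : w = u
          · rw [hwu, hyu]; exact ha
          · rw [hyw w hwu hwv]; exact hx w
      have hlt : (univ.filter fun w => y w ≠ 0).card < k := by
        rw [← hk]
        apply card_lt_card
        rw [ssubset_iff_subset_ne]
        constructor
        · intro w hw
          simp only [mem_filter, mem_univ, true_and] at hw ⊢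
          by_cases hwv : w = v
          · rw [hwv]; exact hv
          · by_cases hwu : w = u
            · rw [hwu]; exact hu
            · rw [← hyw w hwu hwv]; exact hw
        · intro heq
          rcases hab with h | h
          · have : u ∈ univ.filter fun w => y w ≠ 0 := by
              rw [heq]; simp [hu]
            simp [hyu, h] at this
          · have : v ∈ univ.filter fun w => y w ≠ 0 := by
              rw [heq]; simp [hv]
            simp [hyv, h] at this
      have h5 := ih _ hlt y hy0 rfl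
      have e3 : P G l y = P G l x := by rw [hy, hP, e1]; linarith
      have e4 : P G s y ≤ P G s x := by rw [hy, hP', e2]; linarith
      rw [e3] at h5
      exact h5.trans (mul_le_mul_of_nonneg_left
        (pow_le_pow_left₀ (P_nonneg G s y hy0) e4 q) hd)
    have hxu := hx u
    have hxv := hx v
    rcases hB.eq_or_lt with hB0 | hBpos
    · refine key 0 (x v) le_rfl hxv (Or.inl rfl) ?_ ?_
      · rw [← hB0]; ring
      · nlinarith [mul_nonneg hB' hxu]
    rcases hC.eq_or_lt with hC0 | hCpos
    · refine key (x u) 0 hxu le_rfl (Or.inr rfl) ?_ ?_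
      · rw [← hC0]; ring
      · nlinarith [mul_nonneg hC' hxv]
    rcases le_total (B' * C) (C' * B) with h | h
    · refine key (x u + x v * C / B) 0 (by positivity) le_rfl (Or.inr rfl) ?_ ?_
      · field_simp
        ring
      · have h6 : B' * (x v * C / B) ≤ C' * x v := by
          rw [← mul_div_assoc, div_le_iff₀ hBpos]
          nlinarith [mul_le_mul_of_nonneg_left h hxv]
        rw [mul_add]
        linarith
    · refine key 0 (x v + x u * B / C) le_rfl (by positivity) (Or.inl rfl) ?_ ?_
      · field_simp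
        ring
      · have h6 : C' * (x u * B / C) ≤ B' * x u := by
          rw [← mul_div_assoc, div_le_iff₀ hCpos]
          nlinarith [mul_le_mul_of_nonneg_left h hxu]
        rw [mul_add]
        linarith
  · push Not at hcl
    exact hbase x hx hcl

open Classical in
/-- `m^k * i_k(G) ≤ C(m,k) * n^k` for graphs of order `n` with no independent set of more than `m`
vertices. -/
theorem zykov (G : SimpleGraph V) (m k : ℕ) (hm : 1 ≤ m)
    (hα : ∀ A : Finset V, G.IsIndepSet A → A.card ≤ m) :
    m ^ k * indCount G k ≤ m.choose k * (Fintype.card V) ^ k := by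
  have h := symm_ineq G k 1 k ((m : ℝ) ^ k) (m.choose k : ℝ) (Nat.cast_nonneg _) ?_ _
    (fun _ => (1 : ℝ)) (fun _ => zero_le_one) rfl
  · rw [P_one, P_one, indCount_one] at h
    exact_mod_cast h
  · intro x hx hcl
    set T : Finset V := univ.filter fun v => x v ≠ 0 with hT
    have hTi : G.IsIndepSet T := by
      intro a ha b hb _
      have ha' : x a ≠ 0 := by simpa [hT] using ha
      have hb' : x b ≠ 0 := by simpa [hT] using hb
      exact hcl a b ha' hb'
    have hTm := hα T hTi
    have h1 : P G k x ≤ ∑ S ∈ T.powersetCard k, ∏ v ∈ S, x v := by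
      unfold P
      have : ∑ S ∈ indSets G k, ∏ v ∈ S, x v
          = ∑ S ∈ (indSets G k).filter (fun S => S ⊆ T), ∏ v ∈ S, x v := by
        rw [sum_filter]
        refine sum_congr rfl fun S hS => ?_
        split_ifs with hST
        · rfl
        · obtain ⟨w, hwS, hwT⟩ := not_subset.1 hST
          refine prod_eq_zero hwS ?_
          by_contra hne
          exact hwT (by simp [hT, hne])
      rw [this]
      refine sum_le_sum_of_subset_of_nonneg ?_ (fun S _ _ => prod_nonneg fun w _ => hx w)
      intro S hS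
      obtain ⟨h3, h4⟩ := mem_filter.1 hS
      exact mem_powersetCard.2 ⟨h4, (mem_indSets.1 h3).2⟩
    have h2 : ∑ v ∈ T, x v ≤ P G 1 x := by
      unfold P
      have e : ∑ v ∈ T, x v = ∑ S ∈ T.powersetCard 1, ∏ v ∈ S, x v := by
        rw [powersetCard_one, sum_map]
        simp
      rw [e]
      refine sum_le_sum_of_subset_of_nonneg ?_ (fun S _ _ => prod_nonneg fun w _ => hx w)
      intro S hS
      obtain ⟨h3, h4⟩ := mem_powersetCard.1 hS
      refine mem_indSets.2 ⟨?_, h4⟩
      intro a ha b hb hab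
      exact hTi (by exact_mod_cast h3 (by exact_mod_cast ha))
        (by exact_mod_cast h3 (by exact_mod_cast hb)) hab
    have he0 : 0 ≤ ∑ v ∈ T, x v := sum_nonneg fun v _ => hx v
    have h3 := (h1.trans (E_bound x hx T k)).trans (pad T.card m k _ he0
      (fun h => by rw [card_eq_zero.1 h, sum_empty]) hTm)
    have hm' : (0 : ℝ) < m := by exact_mod_cast hm
    have h4 := mul_le_mul_of_nonneg_left h3 (pow_nonneg hm'.le k)
    refine h4.trans ?_
    calc (m : ℝ) ^ k * ((m.choose k : ℝ) * ((∑ v ∈ T, x v) / m) ^ k)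
        = (m.choose k : ℝ) * (∑ v ∈ T, x v) ^ k := by
          rw [div_pow]; field_simp
      _ ≤ (m.choose k : ℝ) * (P G 1 x) ^ k :=
          mul_le_mul_of_nonneg_left (pow_le_pow_left₀ he0 h2 k) (Nat.cast_nonneg _)

/-- The general lower bound: `S` precedes `m` and `J` does not come after `K`. -/
theorem lower_gen (G : SimpleGraph V) {m : ℕ} (π : Equiv.Perm (Fin m)) (h : IsISP π G)
    (s t j κ : Fin m) (ht : (t : ℕ) + 1 = m) (hst : s < t)
    (hpre : π.symm s < π.symm t) (hj : π.symm j ≤ π.symm κ) :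
    (m ^ ((κ : ℕ) + 1) * m.choose (j + 1)) ^ (m - (s + 1)) * (m.choose (s + 1)) ^ ((j : ℕ) + 1)
      ≤ (m.choose (κ + 1) * (Fintype.card V) ^ ((κ : ℕ) + 1)) ^ (m - (s + 1)) := by
  have hα : ∀ A : Finset V, G.IsIndepSet A → A.card ≤ m := by
    intro A hA
    rw [← h.1]
    exact hA.card_le_indepNum
  have hex : ∃ A : Finset V, G.IsIndepSet A ∧ A.card = m := by
    obtain ⟨A, hA⟩ := G.exists_isNIndepSet_indepNum
    exact ⟨A, hA.1, by rw [hA.2, h.1]⟩
  have hsv : (s : ℕ) < t := hst
  have hjm := j.2
  have h1 : indCount G (s + 1) ≤ indCount G m := by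
    have := h.2 (π.symm s) (π.symm t) hpre.le
    rwa [Equiv.apply_symm_apply, Equiv.apply_symm_apply, ht] at this
  have h2 : indCount G (j + 1) ≤ indCount G (κ + 1) := by
    have := h.2 (π.symm j) (π.symm κ) hj
    rwa [Equiv.apply_symm_apply, Equiv.apply_symm_apply] at this
  have h3 := (consequences G m (s + 1) (by omega) (by omega) hα hex h1).1
  have h4 := count_ineq G m (j + 1) (by omega) (by omega) hα
  have h0 := zykov G m (κ + 1) (by omega) hα
  set S := (s : ℕ) + 1 with hS
  set J := (j : ℕ) + 1 with hJ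
  set K := (κ : ℕ) + 1 with hK
  set D := m - S with hD
  have h5 : ((m.choose J) ^ D * (m.choose S) ^ J) ^ m ≤ ((indCount G K) ^ D) ^ m := by
    calc ((m.choose J) ^ D * (m.choose S) ^ J) ^ m
        = ((m.choose J) ^ m) ^ D * ((m.choose S) ^ m) ^ J := by
          rw [mul_pow, ← pow_mul, ← pow_mul, ← pow_mul, ← pow_mul, mul_comm D m, mul_comm J m]
      _ ≤ ((m.choose J) ^ m) ^ D * ((indCount G m) ^ D) ^ J :=
          Nat.mul_le_mul_left _ (Nat.pow_le_pow_left (h3.trans (Nat.pow_le_pow_left h1 _)) _)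
      _ = ((m.choose J) ^ m * (indCount G m) ^ J) ^ D := by
          rw [mul_pow, ← pow_mul (indCount G m) D J, ← pow_mul (indCount G m) J D, mul_comm D J]
      _ ≤ ((indCount G J) ^ m) ^ D := Nat.pow_le_pow_left h4 _
      _ ≤ ((indCount G K) ^ m) ^ D := Nat.pow_le_pow_left (Nat.pow_le_pow_left h2 _) _
      _ = ((indCount G K) ^ D) ^ m := by rw [← pow_mul, ← pow_mul, mul_comm]
  have h6 : (m.choose J) ^ D * (m.choose S) ^ J ≤ (indCount G K) ^ D :=
    (Nat.pow_le_pow_iff_left (by omega)).1 h5
  calc (m ^ K * m.choose J) ^ D * (m.choose S) ^ J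
      = (m ^ K) ^ D * ((m.choose J) ^ D * (m.choose S) ^ J) := by rw [mul_pow]; ring
    _ ≤ (m ^ K) ^ D * (indCount G K) ^ D := Nat.mul_le_mul_left _ h6
    _ = (m ^ K * indCount G K) ^ D := by rw [mul_pow]
    _ ≤ (m.choose K * (Fintype.card V) ^ K) ^ D := Nat.pow_le_pow_left h0 _

end

end Pool.Agent.KS6_78.ISP
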